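import Pool.Agent.Lib.MP_b07157_agB3.Loc2R
import Pool.Agent.Lib.MP_b07157_agB2.KeyB
import Pool.Agent.Lib.MP_b07157_agB2.FinA
import Pool.Agent.Lib.MP_b07157_agB.Final
import Pool.Agent.Lib.MP_b07157_agQ.RootQ

/-!
# The root `-3/d` for curves with ordinary multiple points of any multiplicities
-/

noncomputable section

namespace MPb07157.OK

open MvPolynomial MPb07157Q

variable {l : ℕ} {f : MvPolynomial (Fin 3) ℂ} {g : Fin l → MvPolynomial (Fin 3) ℂ}
  {m : Fin l → ℕ} {d : ℕ}

/-- The initial form at an ordinary multiple point is squarefree. -/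
theorem sq_init' (hf : IsFact f g m) {p : Fin 3 → ℂ} (ho : OrdPt f p) {μ : ℕ}
    (hμ : Mu p μ (∏ j, g j)) (hμ' : ¬ Mu p (μ + 1) (∏ j, g j)) :
    Squarefree (homogeneousComponent μ (translate p (∏ j, g j))) := by
  classical
  obtain ⟨F, k, μ₀, hs, h1, h2, h3, h4⟩ := ho
  obtain ⟨c, hc, hF⟩ := OB.eq_of_squarefree hf hs h1 h2
  have h3' : Mu p μ₀ (∏ j, g j) := by
    intro j hj
    have h5 := h3 j hj
    rw [hF, OB.translate_C_mul, homogeneousComponent_C_mul] at h5
    exact (mul_eq_zero.1 h5).resolve_left (fun h0 => hc (C_eq_zero.1 h0))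
  have h4' : Squarefree (homogeneousComponent μ₀ (translate p (∏ j, g j))) := by
    rw [hF, OB.translate_C_mul, homogeneousComponent_C_mul] at h4
    exact OB.squarefree_C_mul h4
  have h5 : μ₀ = μ := by
    rcases lt_trichotomy μ₀ μ with h | h | h
    · exact absurd (hμ _ h) h4'.ne_zero
    · exact h
    · exact absurd (fun j hj => h3' j (by omega)) hμ'
  rw [← h5]
  exact h4'

end MPb07157.OK

namespace MPb07157

open MvPolynomial MPb07157Q

/-- **The root `-3/d`** for curves all of whose points are quasi-homogeneous or ordinary multiple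
points. -/
theorem root_of_allPt {f : MvPolynomial (Fin 3) ℂ} (hf : f ≠ 0) {d : ℕ} (hd : 0 < d)
    (hh : f.IsHomogeneous d) (hNS : NS f) (h : AllPt f) {b : Polynomial ℂ}
    (hb : IsBernsteinSato f b) : b.eval (((-(3 / d) : ℚ)) : ℂ) = 0 := by
  classical
  obtain ⟨l, g, m, hfact⟩ := exists_isFact hf hd hh
  obtain ⟨n, hD⟩ := OB.dat_of_isFact hfact hd hh
  obtain ⟨r, p, hp0, hpp, hbad, hq⟩ := OK.exists_bad hfact hd hh
  have hform := OB.form_of_bs hb
  rcases Nat.eq_zero_or_pos r with hr | hr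
  · subst hr
    exact root_of_qh hfact hd hh (fun q hq0 h0 => hq q ⟨hq0, fun j => j.elim0⟩ h0) hNS b hform
  · have ho : ∀ j, OrdPt f (p j) := fun j => by
      rcases h (p j) (hp0 j) (hbad j).1 with h1 | h1
      · exact absurd (qhat_of_isWHAt hd hh (hp0 j) h1) (hbad j).2
      · exact h1
    choose μ h2 hlt hμ hμ' using fun j =>
      OK.exists_mu hfact hd hh hNS (hp0 j) (hbad j).1 (hbad j).2 hD.hP
    have hn : 3 ≤ n := by
      have := h2 ⟨0, hr⟩
      have := hlt ⟨0, hr⟩
      omega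
    have key : ∀ G : MvPolynomial (Fin 3) (MvPolynomial (Fin 3) ℂ),
        (∀ q : ℕ, Psi ((f : MvPowerSeries (Fin 3) ℂ) ^ q) G = 0) → cc G = 0 := by
      intro G hG
      by_contra hcc
      obtain ⟨t, Sec, hS, hR⟩ := OK.totK' hD hq hp0 G hG
      have hc : -(cc G) ≠ 0 := neg_ne_zero.2 hcc
      exact hc (OK.keyB hD (OK.squarefree_prod hfact) hn hp0 hpp hS hμ h2 hlt ⟨0, hr⟩
        (OK.sq_init' hfact (ho _) (hμ _) (hμ' _))
        (fun j => OK.loc_sol' hfact hD hn hp0 hpp hc hS hR j (ho j) (hμ j) (hμ' j)) hNS)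
    have := OB.root_of_key hf hd hh key b hform
    rw [← this]
    congr 1
    push_cast
    ring

/-- The strong monodromy conjecture at `-3/d` for these curves. -/
theorem smc_allPt {f : MvPolynomial (Fin 3) ℂ} (hf : f ≠ 0) {d : ℕ} (hd : 0 < d)
    (hh : f.IsHomogeneous d) (h : AllPt f)
    (hp : IsPole (Zmot f) (-(3 / d)) ∨ IsPole (Zmot0 f) (-(3 / d))) {b : Polynomial ℂ}
    (hb : IsBernsteinSato f b) : b.eval (((-(3 / d) : ℚ)) : ℂ) = 0 := by
  by_cases hNS : NS f
  · exact root_of_allPt hf hd hh hNS h hb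
  · have h0 : coeff 0 f = 0 := by
      rw [← MvPolynomial.notMem_support_iff]
      intro h
      have := hh (mem_support_iff.1 h)
      simp at this
      omega
    have hs : (-(3 / d) : ℚ) < 0 := by
      have : (0 : ℚ) < d := by exact_mod_cast hd
      have : (0 : ℚ) < 3 / d := by positivity
      linarith
    obtain ⟨h1, h2⟩ := stable_of_not_NS hf hd hh hNS
    rcases hp with hp | hp
    · exact SmcGlob.of_stableGlob h2 hf _ hs hp b hb
    · exact SmcLoc.of_stableLoc h1 hf h0 _ hs hp b (OB.form_of_bs hb)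

end MPb07157
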