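import Pool.Agent.Lib.MP_b07157_agB2.OpA
import Pool.Agent.Lib.MP_b07157_agB2.OpB
import Pool.Agent.Lib.MP_b07157_agB2.RgB

/-!
# An additional relation for the global solution

If the operator `G` with polynomial coefficients is `∑ ∂^b (T_b · grad)`, where the `T_b` kill
`f`, then for every linear form `x` the function `t(x) / x` (`t` is the vector field `T_0`) is the
sum of a function with poles only along `x = 0` and the divergence of a vector field which kills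
`f`.
-/

noncomputable section

namespace MPb07157.OK

open MvPolynomial MPb07157Q

/-- The additional relation. -/
def Res (f x h : MvPolynomial (Fin 3) ℂ) (t : Fin 3 → Kf) : Prop :=
  ∃ (r : Kf) (η : Fin 3 → Kf), Hk 0 r ∧ (∀ q, eval q x ≠ 0 → RegAt q r) ∧
    (∀ k, Hk 1 (η k)) ∧ (∀ k q, eval q (x * h) ≠ 0 → RegAt q (η k)) ∧
    ∑ k, η k * DK k (fr f) = 0 ∧
    ∑ k, fr (pderiv k x) * t k = fr x * (r + dvK η)

/-- The linear form with coefficients `c`. -/
def lfc (c : Fin 3 → ℂ) : MvPolynomial (Fin 3) ℂ := ∑ k, C (c k) * X k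

theorem pderiv_lfc (c : Fin 3 → ℂ) (k : Fin 3) : pderiv k (lfc c) = C (c k) := by
  unfold lfc
  rw [map_sum, Finset.sum_eq_single k]
  · rw [pderiv_C_mul, pderiv_X_self, mul_one]
  · intro j _ hj
    rw [pderiv_C_mul, pderiv_X_of_ne hj, mul_zero]
  · intro h
    exact absurd (Finset.mem_univ k) h

theorem lfc_ne_zero {c : Fin 3 → ℂ} (hc : c ≠ 0) : lfc c ≠ 0 := by
  intro h
  apply hc
  funext k
  have := pderiv_lfc c k
  rw [h, map_zero] at this
  exact (C_eq_zero.1 this.symm)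

theorem isHomogeneous_lfc (c : Fin 3 → ℂ) : (lfc c).IsHomogeneous 1 := by
  unfold lfc
  apply IsHomogeneous.sum
  intro k _
  have := (isHomogeneous_C (Fin 3) (c k)).mul (isHomogeneous_X ℂ k)
  rwa [zero_add] at this

theorem DK_lfc (c : Fin 3 → ℂ) (k : Fin 3) : DK k (fr (lfc c)) = algebraMap ℂ Kf (c k) := by
  rw [DK_fr, pderiv_lfc, fr_C]

/-- The product of the powers of the `c k`. -/
def cpw (c : Fin 3 → ℂ) (b : Fin 3 →₀ ℕ) : ℂ := b.prod fun k e => c k ^ e

theorem cpw_succ (c : Fin 3 → ℂ) (b : Fin 3 →₀ ℕ) (k : Fin 3) :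
    cpw c (b + Finsupp.single k 1) = cpw c b * c k := by
  unfold cpw
  rw [Finsupp.prod_add_index', Finsupp.prod_single_index]
  · rw [pow_one]
  · rw [pow_zero]
  · intro j
    rw [pow_zero]
  · intro j a b
    rw [pow_add]

/-- Up to signs the derivatives of the logarithm of the linear form. -/
def kap (c : Fin 3 → ℂ) (b : Fin 3 →₀ ℕ) : Kf :=
  if b = 0 then 0 else algebraMap ℂ Kf ((b.degree - 1).factorial * cpw c b) *
    (fr (lfc c))⁻¹ ^ b.degree

theorem kap_zero (c : Fin 3 → ℂ) : kap c 0 = 0 := by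
  unfold kap
  rw [if_pos rfl]

theorem DK_inv_pow {x : Kf} (hx : x ≠ 0) (k : Fin 3) (m : ℕ) :
    DK k (x⁻¹ ^ m) = -(m : Kf) * DK k x * x⁻¹ ^ (m + 1) := by
  have h1 : x * x⁻¹ = 1 := mul_inv_cancel₀ hx
  have h2 : DK k (x * x⁻¹) = 0 := by rw [h1, Derivation.map_one_eq_zero]
  rw [DK_mul] at h2
  have h3 : DK k x⁻¹ = -(DK k x * x⁻¹ ^ 2) := by
    apply mul_left_cancel₀ hx
    linear_combination h2 + DK k x * x⁻¹ * h1
  rw [Derivation.leibniz_pow, h3, smul_eq_mul, nsmul_eq_mul]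
  rcases m with _ | m
  · simp
  · rw [Nat.add_sub_cancel]
    push_cast
    ring

theorem kap_succ {c : Fin 3 → ℂ} (hc : c ≠ 0) (b : Fin 3 →₀ ℕ) (k : Fin 3) :
    kap c (b + Finsupp.single k 1) =
      (if b = 0 then algebraMap ℂ Kf (c k) * (fr (lfc c))⁻¹ else 0) - DK k (kap c b) := by
  have h0 : b + Finsupp.single k 1 ≠ 0 := by
    intro h
    have := congrArg (fun w : Fin 3 →₀ ℕ => w k) h
    simp at this
  have hd : (b + Finsupp.single k 1 : Fin 3 →₀ ℕ).degree = b.degree + 1 := by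
    rw [map_add, Finsupp.degree_single]
  unfold kap
  rw [if_neg h0, hd, cpw_succ, Nat.add_sub_cancel]
  by_cases hb : b = 0
  · subst hb
    rw [if_pos rfl, if_pos rfl, Derivation.map_zero, sub_zero]
    simp [cpw]
  · rw [if_neg hb, if_neg hb, zero_sub, DK_mul, Derivation.map_algebraMap, mul_zero, add_zero,
      DK_inv_pow (fr_ne_zero (lfc_ne_zero hc)), DK_lfc]
    have hb1 : b.degree ≠ 0 := by rwa [Ne, Finsupp.degree_eq_zero_iff]
    obtain ⟨e, he⟩ := Nat.exists_eq_succ_of_ne_zero hb1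
    rw [he, Nat.succ_eq_add_one, Nat.add_sub_cancel, Nat.factorial_succ]
    simp only [map_mul, map_natCast, Nat.cast_mul, Nat.cast_add, Nat.cast_one, map_add, map_one]
    ring

/-- The functional `∑ κ_b G_b`. -/
def Kp (c : Fin 3 → ℂ) (G : MvPolynomial (Fin 3) Kf) : Kf :=
  ∑ b ∈ G.support, kap c b * coeff b G

variable {c : Fin 3 → ℂ}

theorem Kp_eq_sum {G : MvPolynomial (Fin 3) Kf} {s : Finset (Fin 3 →₀ ℕ)}
    (hs : G.support ⊆ s) : Kp c G = ∑ b ∈ s, kap c b * coeff b G := by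
  unfold Kp
  apply Finset.sum_subset hs
  intro b _ hb
  rw [notMem_support_iff.1 hb, mul_zero]

theorem Kp_add (G H : MvPolynomial (Fin 3) Kf) : Kp c (G + H) = Kp c G + Kp c H := by
  classical
  rw [Kp_eq_sum (support_add : (G + H).support ⊆ _),
    Kp_eq_sum (Finset.subset_union_left : G.support ⊆ G.support ∪ H.support),
    Kp_eq_sum (Finset.subset_union_right : H.support ⊆ G.support ∪ H.support),
    ← Finset.sum_add_distrib]
  refine Finset.sum_congr rfl fun b _ => ?_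
  rw [coeff_add, mul_add]

theorem Kp_zero : Kp c 0 = 0 := by simp [Kp]

theorem Kp_neg (G : MvPolynomial (Fin 3) Kf) : Kp c (-G) = -Kp c G := by
  have h := Kp_add (c := c) G (-G)
  rw [add_neg_cancel, Kp_zero] at h
  exact (neg_eq_of_add_eq_zero_right h.symm).symm

theorem Kp_sub (G H : MvPolynomial (Fin 3) Kf) : Kp c (G - H) = Kp c G - Kp c H := by
  rw [sub_eq_add_neg, Kp_add, Kp_neg, sub_eq_add_neg]

theorem Kp_sum {ι : Type*} (s : Finset ι) (G : ι → MvPolynomial (Fin 3) Kf) :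
    Kp c (∑ i ∈ s, G i) = ∑ i ∈ s, Kp c (G i) := by
  classical
  induction s using Finset.induction_on with
  | empty => rw [Finset.sum_empty, Finset.sum_empty, Kp_zero]
  | insert a s ha ih => rw [Finset.sum_insert ha, Finset.sum_insert ha, Kp_add, ih]

theorem Kp_monomial (b : Fin 3 →₀ ℕ) (a : Kf) : Kp c (monomial b a) = kap c b * a := by
  classical
  rw [Kp_eq_sum (support_monomial_subset : (monomial b a).support ⊆ {b}),
    Finset.sum_singleton, coeff_monomial, if_pos rfl]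

theorem Kp_mul_C (G : MvPolynomial (Fin 3) Kf) (a : Kf) : Kp c (G * C a) = Kp c G * a := by
  induction G using MvPolynomial.induction_on' with
  | monomial b u =>
    rw [mul_comm, C_mul_monomial, Kp_monomial, Kp_monomial]
    ring
  | add G H hG hH => rw [add_mul, Kp_add, Kp_add, hG, hH, add_mul]

theorem Kp_nab (hc : c ≠ 0) (k : Fin 3) (T : MvPolynomial (Fin 3) Kf) :
    Kp c (nab k T) = algebraMap ℂ Kf (c k) * (fr (lfc c))⁻¹ * coeff 0 T - DK k (Kp c T) := by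
  classical
  unfold nab
  induction T using MvPolynomial.induction_on' with
  | monomial b u =>
    rw [Kp_sub, X, monomial_mul, one_mul, dC_monomial, Kp_monomial, Kp_monomial, Kp_monomial,
      add_comm, kap_succ hc, DK_mul, coeff_monomial]
    by_cases hb : b = 0
    · rw [if_pos hb, if_pos hb]
      ring
    · rw [if_neg hb, if_neg hb]
      ring
  | add G H hG hH =>
    rw [mul_add, dC_add, Kp_sub, Kp_add, Kp_add, coeff_add, Kp_add, map_add]
    rw [Kp_sub] at hG hH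
    linear_combination hG + hH

theorem Kp_dvg (hc : c ≠ 0) (T : Fin 3 → MvPolynomial (Fin 3) Kf) :
    Kp c (dvg T) = (∑ k, algebraMap ℂ Kf (c k) * coeff 0 (T k)) * (fr (lfc c))⁻¹ -
      dvK fun k => Kp c (T k) := by
  unfold dvg dvK
  rw [Kp_sum, Finset.sum_congr rfl fun k _ => Kp_nab hc k (T k), Finset.sum_sub_distrib,
    Finset.sum_mul]
  congr 1
  refine Finset.sum_congr rfl fun k _ => ?_
  ring

/-! ### Regularity and homogeneity -/

theorem RegAt.inv_lfc {q : Fin 3 → ℂ} (hq : eval q (lfc c) ≠ 0) : RegAt q (OK.fr (lfc c))⁻¹ := by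
  refine ⟨1, lfc c, hq, ?_⟩
  rw [map_one, inv_mul_cancel₀]
  apply fr_ne_zero
  intro h
  apply hq
  rw [h, map_zero]

theorem RegAt.pow' {q : Fin 3 → ℂ} {g : Kf} (h : RegAt q g) (m : ℕ) : RegAt q (g ^ m) := by
  induction m with
  | zero =>
    rw [pow_zero, ← map_one OK.fr]
    exact RegAt.fr q 1
  | succ m ih =>
    rw [pow_succ]
    exact ih.mul h

theorem RegAt.kap {q : Fin 3 → ℂ} (hq : eval q (lfc c) ≠ 0) (b : Fin 3 →₀ ℕ) :
    RegAt q (OK.kap c b) := by
  unfold OK.kap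
  split_ifs with h
  · exact RegAt.zero q
  · exact (RegAt.const q _).mul ((RegAt.inv_lfc hq).pow' _)

theorem RegAt.Kp {q : Fin 3 → ℂ} (hq : eval q (lfc c) ≠ 0) {G : MvPolynomial (Fin 3) Kf}
    (hG : RegP q G) : RegAt q (OK.Kp c G) := by
  unfold OK.Kp
  exact RegAt.sum fun b _ => (RegAt.kap hq b).mul (hG b)

theorem Hk.const (a : ℂ) : Hk 0 (algebraMap ℂ Kf a) := by
  rw [← fr_C]
  exact_mod_cast Hk.fr (isHomogeneous_C (Fin 3) a)

theorem Hk.pow' {k : ℤ} {g : Kf} (h : Hk k g) (m : ℕ) : Hk (m * k) (g ^ m) := by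
  induction m with
  | zero =>
    rw [pow_zero, Nat.cast_zero, zero_mul, ← map_one (algebraMap ℂ Kf)]
    exact Hk.const 1
  | succ m ih =>
    rw [pow_succ]
    have := ih.mul h
    have e : (m : ℤ) * k + k = ((m + 1 : ℕ) : ℤ) * k := by
      push_cast
      ring
    rwa [e] at this

theorem Hk.kap (b : Fin 3 →₀ ℕ) : Hk (-(b.degree : ℤ)) (OK.kap c b) := by
  unfold OK.kap
  split_ifs with h
  · exact Hk.zero _
  · have h1 : Hk 1 (OK.fr (lfc c)) := by exact_mod_cast Hk.fr (isHomogeneous_lfc c)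
    have h2 := (Hk.const ((b.degree - 1).factorial * cpw c b)).mul (h1.inv.pow' b.degree)
    have e : (0 : ℤ) + (b.degree : ℤ) * -1 = -(b.degree : ℤ) := by ring
    rwa [e] at h2

theorem Hk.sum' {k : ℤ} {ι : Type*} {s : Finset ι} {u : ι → Kf} (h : ∀ i ∈ s, Hk k (u i)) :
    Hk k (∑ i ∈ s, u i) := by
  classical
  induction s using Finset.induction_on with
  | empty => exact Hk.zero k
  | insert a s ha ih =>
    rw [Finset.sum_insert ha]
    exact (h a (Finset.mem_insert_self _ _)).add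
      (ih fun i hi => h i (Finset.mem_insert_of_mem hi))

theorem Hk.Kp {k : ℤ} {G : MvPolynomial (Fin 3) Kf} (hG : HkP k G) : Hk k (OK.Kp c G) := by
  unfold OK.Kp
  apply Hk.sum'
  intro b _
  have := (Hk.kap (c := c) b).mul (hG b)
  have e : -(b.degree : ℤ) + (b.degree + k) = k := by ring
  rwa [e] at this

/-- The additional relation for operators with polynomial coefficients. -/
theorem res_of_dvg {f h : MvPolynomial (Fin 3) ℂ} (hc : c ≠ 0)
    (G : MvPolynomial (Fin 3) (MvPolynomial (Fin 3) ℂ)) {T : Fin 3 → MvPolynomial (Fin 3) Kf}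
    (hT : ∀ k q, eval q h ≠ 0 → RegP q (T k)) (hk : ∀ k, HkP 1 (T k))
    (h0 : ∑ k, T k * C (DK k (fr f)) = 0)
    (hG : map (fr : MvPolynomial (Fin 3) ℂ →+* Kf) G = dvg T) :
    Res f (lfc c) h fun k => coeff 0 (T k) := by
  have hx : fr (lfc c) ≠ 0 := fr_ne_zero (lfc_ne_zero hc)
  have e1 : ∀ k, Hk 1 (Kp c (T k)) := fun k => Hk.Kp (hk k)
  have e2 : ∑ k, algebraMap ℂ Kf (c k) * coeff 0 (T k) =
      fr (lfc c) * (Kp c (dvg T) + dvK fun k => Kp c (T k)) := by
    rw [Kp_dvg hc, sub_add_cancel, mul_comm (fr (lfc c)), mul_assoc, inv_mul_cancel₀ hx, mul_one]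
  have e3 : ∀ k, Hk 1 (coeff 0 (T k)) := by
    intro k
    have := hk k 0
    rwa [map_zero, Nat.cast_zero, zero_add] at this
  have e4 : Hk 0 (dvK fun k => Kp c (T k)) := by
    unfold dvK
    apply Hk.sum'
    intro k _
    have := (e1 k).DK k
    rwa [sub_self] at this
  have e5 : Hk 1 (fr (lfc c)) := by exact_mod_cast Hk.fr (isHomogeneous_lfc c)
  refine ⟨Kp c (dvg T), fun k => Kp c (T k), ?_, ?_, e1, ?_, ?_, ?_⟩
  · rw [Kp_dvg hc]
    refine Hk.sub ?_ e4
    rw [Finset.sum_mul]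
    apply Hk.sum'
    intro k _
    have := ((Hk.const (c k)).mul (e3 k)).mul e5.inv
    rwa [zero_add, add_neg_cancel] at this
  · intro q hq
    apply RegAt.Kp hq
    rw [← hG]
    intro b
    rw [coeff_map]
    exact RegAt.fr q _
  · intro k q hq
    rw [map_mul, mul_ne_zero_iff] at hq
    exact RegAt.Kp hq.1 (hT k q hq.2)
  · rw [← Kp_zero (c := c), ← h0, Kp_sum]
    exact Finset.sum_congr rfl fun k _ => (Kp_mul_C _ _).symm
  · rw [← e2]
    refine Finset.sum_congr rfl fun k _ => ?_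
    rw [pderiv_lfc, fr_C]

theorem dvK_add (s t : Fin 3 → Kf) : dvK (fun k => s k + t k) = dvK s + dvK t := by
  unfold dvK
  rw [← Finset.sum_add_distrib]
  exact Finset.sum_congr rfl fun k _ => map_add _ _ _

/-- The divergence of `(w × c) / x`. -/
theorem dvK_crs (hc : c ≠ 0) (w : Fin 3 → Kf) :
    fr (lfc c) * dvK (fun k => (w (k + 1) * algebraMap ℂ Kf (c (k + 2)) -
      w (k + 2) * algebraMap ℂ Kf (c (k + 1))) * (fr (lfc c))⁻¹) =
      ∑ k, algebraMap ℂ Kf (c k) * cuK w k := by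
  have hx : fr (lfc c) ≠ 0 := fr_ne_zero (lfc_ne_zero hc)
  have e1 : ∀ k, DK k (fr (lfc c))⁻¹ = -(algebraMap ℂ Kf (c k)) * (fr (lfc c))⁻¹ ^ 2 := by
    intro k
    have := DK_inv_pow hx k 1
    rw [pow_one, DK_lfc] at this
    rw [this]
    simp
  have e2 : ∀ (k : Fin 3) (a b : Kf) (α β : ℂ), DK k ((a * algebraMap ℂ Kf α -
      b * algebraMap ℂ Kf β) * (fr (lfc c))⁻¹) = (DK k a * algebraMap ℂ Kf α -
      DK k b * algebraMap ℂ Kf β) * (fr (lfc c))⁻¹ - (a * algebraMap ℂ Kf α -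
      b * algebraMap ℂ Kf β) * (algebraMap ℂ Kf (c k) * (fr (lfc c))⁻¹ ^ 2) := by
    intro k a b α β
    rw [DK_mul, e1, map_sub, DK_mul, DK_mul, Derivation.map_algebraMap,
      Derivation.map_algebraMap]
    ring
  have e3 : fr (lfc c) * (fr (lfc c))⁻¹ = 1 := mul_inv_cancel₀ hx
  unfold dvK
  rw [Finset.sum_congr rfl fun k _ => e2 k _ _ _ _]
  unfold cuK
  simp only [Fin.sum_univ_three]
  show fr (lfc c) * ((DK 0 (w 1) * algebraMap ℂ Kf (c 2) - DK 0 (w 2) * algebraMap ℂ Kf (c 1)) *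
      (fr (lfc c))⁻¹ - (w 1 * algebraMap ℂ Kf (c 2) - w 2 * algebraMap ℂ Kf (c 1)) *
      (algebraMap ℂ Kf (c 0) * (fr (lfc c))⁻¹ ^ 2) +
    ((DK 1 (w 2) * algebraMap ℂ Kf (c 0) - DK 1 (w 0) * algebraMap ℂ Kf (c 2)) *
      (fr (lfc c))⁻¹ - (w 2 * algebraMap ℂ Kf (c 0) - w 0 * algebraMap ℂ Kf (c 2)) *
      (algebraMap ℂ Kf (c 1) * (fr (lfc c))⁻¹ ^ 2)) +
    ((DK 2 (w 0) * algebraMap ℂ Kf (c 1) - DK 2 (w 1) * algebraMap ℂ Kf (c 0)) *
      (fr (lfc c))⁻¹ - (w 0 * algebraMap ℂ Kf (c 1) - w 1 * algebraMap ℂ Kf (c 0)) *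
      (algebraMap ℂ Kf (c 2) * (fr (lfc c))⁻¹ ^ 2))) =
    algebraMap ℂ Kf (c 0) * (DK 1 (w 2) - DK 2 (w 1)) +
    algebraMap ℂ Kf (c 1) * (DK 2 (w 0) - DK 0 (w 2)) +
    algebraMap ℂ Kf (c 2) * (DK 0 (w 1) - DK 1 (w 0))
  linear_combination (algebraMap ℂ Kf (c 0) * (DK 1 (w 2) - DK 2 (w 1)) +
    algebraMap ℂ Kf (c 1) * (DK 2 (w 0) - DK 0 (w 2)) +
    algebraMap ℂ Kf (c 2) * (DK 0 (w 1) - DK 1 (w 0))) * e3

/-- The additional relation is stable under addition of curls. -/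
theorem Res.add_cu {f P : MvPolynomial (Fin 3) ℂ} {v : Fin 3 → MvPolynomial (Fin 3) ℂ} {d n : ℕ}
    (h : OB.Dat f P v d n) (hc : c ≠ 0) {hh : MvPolynomial (Fin 3) ℂ} {t : Fin 3 → Kf} {g : Kf}
    (H : Res f (lfc c) hh t) (hg : Hk (3 - n) g) (hr : ∀ q, eval q hh ≠ 0 → RegAt q g) :
    Res f (lfc c) hh fun k => t k + cuK (fun j => g * fr (v j)) k := by
  obtain ⟨r, η, h1, h2, h3, h4, h5, h6⟩ := H
  have e5 : Hk 1 (fr (lfc c)) := by exact_mod_cast Hk.fr (isHomogeneous_lfc c)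
  have e6 : ∀ j, Hk 2 (g * fr (v j)) := by
    intro j
    have := hg.mul (Hk.fr (h.hv j))
    have e : (3 : ℤ) - n + ((n - 1 : ℕ) : ℤ) = 2 := by
      have := h.hn
      omega
    rwa [e] at this
  have e7 : ∀ (a : Kf) (α : ℂ), Hk 2 a → Hk 2 (a * algebraMap ℂ Kf α) := by
    intro a α ha
    have := ha.mul (Hk.const α)
    rwa [add_zero] at this
  refine ⟨r, fun k => η k + ((g * fr (v (k + 1))) * algebraMap ℂ Kf (c (k + 2)) -
      (g * fr (v (k + 2))) * algebraMap ℂ Kf (c (k + 1))) * (fr (lfc c))⁻¹, h1, h2, ?_, ?_, ?_, ?_⟩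
  · intro k
    refine (h3 k).add ?_
    have := ((e7 _ (c (k + 2)) (e6 (k + 1))).sub (e7 _ (c (k + 1)) (e6 (k + 2)))).mul e5.inv
    exact_mod_cast this
  · intro k q hq
    refine (h4 k q hq).add ?_
    rw [map_mul, mul_ne_zero_iff] at hq
    exact ((((hr q hq.2).mul (RegAt.fr q _)).mul (RegAt.const q _)).sub
      (((hr q hq.2).mul (RegAt.fr q _)).mul (RegAt.const q _))).mul (RegAt.inv_lfc hq.1)
  · simp only [add_mul]
    rw [Finset.sum_add_distrib, h5, zero_add]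
    have hP : fr P ≠ 0 := fr_ne_zero h.P0
    apply mul_left_cancel₀ hP
    rw [mul_zero, Finset.mul_sum]
    have e8 : ∀ k, fr P * (((g * fr (v (k + 1))) * algebraMap ℂ Kf (c (k + 2)) -
        (g * fr (v (k + 2))) * algebraMap ℂ Kf (c (k + 1))) * (fr (lfc c))⁻¹ * DK k (fr f)) =
        (((g * fr (v (k + 1))) * algebraMap ℂ Kf (c (k + 2)) -
        (g * fr (v (k + 2))) * algebraMap ℂ Kf (c (k + 1))) * (fr (lfc c))⁻¹) *
        (fr f * fr (v k)) := by
      intro k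
      rw [← CmpA.relL h k]
      ring
    rw [Finset.sum_congr rfl fun k _ => e8 k, Fin.sum_univ_three]
    show ((g * fr (v 1)) * algebraMap ℂ Kf (c 2) - (g * fr (v 2)) * algebraMap ℂ Kf (c 1)) *
        (fr (lfc c))⁻¹ * (fr f * fr (v 0)) +
      ((g * fr (v 2)) * algebraMap ℂ Kf (c 0) - (g * fr (v 0)) * algebraMap ℂ Kf (c 2)) *
        (fr (lfc c))⁻¹ * (fr f * fr (v 1)) +
      ((g * fr (v 0)) * algebraMap ℂ Kf (c 1) - (g * fr (v 1)) * algebraMap ℂ Kf (c 0)) *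
        (fr (lfc c))⁻¹ * (fr f * fr (v 2)) = 0
    ring
  · rw [dvK_add, ← add_assoc, mul_add, ← h6, dvK_crs hc (fun j => g * fr (v j)),
      ← Finset.sum_add_distrib]
    refine Finset.sum_congr rfl fun k _ => ?_
    rw [pderiv_lfc, fr_C]
    ring

end MPb07157.OK
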