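import Pool.Agent.Lib.MP_b07157_agB2.TotK
import Pool.Agent.Lib.MP_b07157_agB3.Res

/-!
# The global solution with the additional relation
-/

noncomputable section

namespace MPb07157.OK

open MvPolynomial MPb07157Q
open MPb07157.OB (Dat Vert sum3 f3a f3b f3c f3d f3n1 f3n2 f3n3 f3cases)

variable {f P : MvPolynomial (Fin 3) ℂ} {v : Fin 3 → MvPolynomial (Fin 3) ℂ} {d n r : ℕ}
  {b : Fin r → Fin 3 → ℂ}

/-- Local solutions with the additional relation. -/
def SolR (f : MvPolynomial (Fin 3) ℂ) (v : Fin 3 → MvPolynomial (Fin 3) ℂ) (n : ℕ)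
    (b : Fin r → Fin 3 → ℂ) (t : Fin 3 → Kf) (Sec : (Fin 3 → ℂ) → Kf → Prop) : Prop :=
  ∀ (e : ℕ) (h : MvPolynomial (Fin 3) ℂ), 0 < e → h.IsHomogeneous e → h ≠ 0 →
    (∀ j, eval (b j) h = 0) → ∃ g, Hk (3 - n) g ∧ (∀ q, eval q h ≠ 0 → Sec q g) ∧
      ∀ c, c ≠ 0 → Res f (lfc c) h fun k => t k + cuK (fun j => g * fr (v j)) k

open TotKAux

/-- As `MPb07157.OK.totK`, with the additional relation. -/
theorem totK' (h : Dat f P v d n) (hQ : ∀ q, OffB b q → eval q f = 0 → QHat f q)
    (hb : ∀ j, b j ≠ 0) (G : MvPolynomial (Fin 3) (MvPolynomial (Fin 3) ℂ))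
    (hG : ∀ q : ℕ, Psi ((f : MvPowerSeries (Fin 3) ℂ) ^ q) G = 0) :
    ∃ t Sec, Sol f v n b (-(cc G)) t Sec ∧ SolR f v n b t Sec := by
  set H : MvPolynomial (Fin 3) Kf := map (fr : MvPolynomial (Fin 3) ℂ →+* Kf) (G0 G) with hH
  obtain ⟨M, hM⟩ := exists_deg H
  have hHr : ∀ q, RegP q H := by
    intro q β
    rw [hH, coeff_map]
    exact RegAt.fr q _
  have hHk : HkP 0 H := by
    intro β
    rw [hH, coeff_map, coeff_G0, add_zero]
    exact Hk.fr (homogeneousComponent_isHomogeneous _ _)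
  have hdec : ∀ (e : ℕ) (hh : MvPolynomial (Fin 3) ℂ), 0 < e → hh.IsHomogeneous e → hh ≠ 0 →
      (∀ j, eval (b j) hh = 0) → ∃ T : Fin 3 → MvPolynomial (Fin 3) Kf,
        (∀ k q, eval q hh ≠ 0 → RegP q (T k)) ∧
        (∀ k, HkP 1 (T k)) ∧ ∑ k, T k * C (DK k (fr f)) = 0 ∧ H = dvg T :=
    fun e hh he hhom hh0 hbj =>
      decK h hQ he hhom hh0 hbj M H (fun q _ => hHr q) hHk hM (psi_G0 h.hf hG)
  obtain ⟨e0, h0, he0, hhom0, hh0, hb0⟩ := exists_h0 b
  obtain ⟨T0, r0, k0, z0, d0⟩ := hdec e0 h0 he0 hhom0 hh0 hb0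
  set Sec : (Fin 3 → ℂ) → Kf → Prop := fun q g => ∃ (T : Fin 3 → MvPolynomial (Fin 3) Kf)
    (U : MvPolynomial (Fin 3) Kf) (u : Kf), (∀ k, RegP q (T k)) ∧
      (∀ k, T0 k - T k = cur (fun j => U * C (fr (v j))) k) ∧ RegAt q u ∧
      g = coeff 0 U + u with hSec
  have hR : SolR f v n b (fun k => coeff 0 (T0 k)) Sec := by
    intro e hh he hhom hhn hbj
    obtain ⟨T, r1, k1, z1, d1⟩ := hdec e hh he hhom hhn hbj
    obtain ⟨q1, hq1⟩ := exists_pt (mul_ne_zero hh0 hhn)
    rw [map_mul] at hq1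
    obtain ⟨hq0, hq1⟩ := mul_ne_zero_iff.1 hq1
    obtain ⟨M', hM'⟩ := exists_deg' (fun k => T0 k - T k)
    obtain ⟨U, -, hU⟩ := cmpK h q1 M' (fun k => T0 k - T k) (fun k β => by
        rw [coeff_sub]
        exact (r0 k q1 hq0 β).sub (r1 k q1 hq1 β)) hM' (by
        simp only [sub_mul, Finset.sum_sub_distrib]
        rw [z0, z1, sub_zero]) (by rw [dvg_sub, ← d0, ← d1, sub_self])
    refine ⟨coeff 0 U, ?_, fun q hq => ⟨T, U, 0, fun k => r1 k q hq, hU, RegAt.zero q,
      (add_zero _).symm⟩, fun c hc => ?_⟩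
    · have hk : HkP (3 - n) U := by
        refine hkP_of_cur h fun k => ?_
        rw [← hU k]
        intro β
        rw [coeff_sub]
        exact (k0 k β).sub (k1 k β)
      have := hk 0
      simpa using this
    · have e1 : (fun k => coeff 0 (T0 k) + cuK (fun j => coeff 0 U * fr (v j)) k) =
          fun k => coeff 0 (T k) := by
        funext k
        have h1 := congrArg (coeff 0) (hU k)
        rw [coeff_sub, coeff_cur] at h1
        simp only [coeff_mulC] at h1
        linear_combination h1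
      show Res f (lfc c) hh fun k => coeff 0 (T0 k) + cuK (fun j => coeff 0 U * fr (v j)) k
      rw [e1]
      exact res_of_dvg hc (G0 G) r1 k1 z1 d1
  refine ⟨fun k => coeff 0 (T0 k), Sec, ⟨?_, ?_, ?_, ?_, ?_, ?_, ?_⟩, hR⟩
  · -- uniqueness
    rintro q g g' ⟨T, U, u, hT, hU, hu, rfl⟩ ⟨T', U', u', hT', hU', hu', rfl⟩
    have hw : ∀ k, T' k - T k = cur (fun j => (U - U') * C (fr (v j))) k := by
      intro k
      have e1 : (fun j => (U - U') * C (fr (v j))) =
          fun j => (fun j => U * C (fr (v j))) j - (fun j => U' * C (fr (v j))) j := by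
        funext j
        ring
      rw [e1, cur_sub, ← hU, ← hU']
      ring
    obtain ⟨M', hM'⟩ := exists_deg' (fun k => T' k - T k)
    have hreg : ∀ k, RegP q (T' k - T k) := by
      intro k β
      rw [coeff_sub]
      exact (hT' k β).sub (hT k β)
    have hkill : ∑ k, (T' k - T k) * C (DK k (fr f)) = 0 := by
      rw [← cur_kills h (U - U')]
      exact Finset.sum_congr rfl fun k _ => by rw [hw]
    have hdv : dvg (fun k => T' k - T k) = 0 := by
      rw [show (fun k => T' k - T k) = cur (fun j => (U - U') * C (fr (v j))) from funext hw]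
      exact dvg_cur _
    obtain ⟨U'', hr'', hU''⟩ := cmpK h q M' (fun k => T' k - T k) hreg hM' hkill hdv
    have hz : U - U' - U'' = 0 := by
      refine cur_injK h fun k => ?_
      have e1 : (fun j => (U - U' - U'') * C (fr (v j))) =
          fun j => (fun j => (U - U') * C (fr (v j))) j - (fun j => U'' * C (fr (v j))) j := by
        funext j
        ring
      rw [e1, cur_sub, ← hw, ← hU'', sub_self]
    have hc : coeff 0 U - coeff 0 U' = coeff 0 U'' := by
      have := congrArg (coeff 0) hz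
      rw [coeff_sub, coeff_sub, coeff_zero] at this
      exact sub_eq_zero.1 this
    have e2 : coeff 0 U + u - (coeff 0 U' + u') = coeff 0 U'' + (u - u') := by
      rw [← hc]
      ring
    rw [e2]
    exact (hr'' 0).add (hu.sub hu')
  · -- addition
    rintro q g u' ⟨T, U, u, hT, hU, hu, rfl⟩ hu'
    exact ⟨T, U, u + u', hT, hU, hu.add hu', by ring⟩
  · -- existence
    intro e hh he hhom hhn hbj
    obtain ⟨g, h1, h2, -⟩ := hR e hh he hhom hhn hbj
    exact ⟨g, h1, h2⟩
  · -- regularity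
    rintro q g ⟨T, U, u, hT, hU, hu, rfl⟩ k
    have e1 : coeff 0 (T0 k) + cuK (fun j => coeff 0 U * fr (v j)) k = coeff 0 (T k) := by
      have h1 := congrArg (coeff 0) (hU k)
      rw [coeff_sub, coeff_cur] at h1
      simp only [coeff_mulC] at h1
      linear_combination h1
    have e2 : coeff 0 (T0 k) + cuK (fun j => (coeff 0 U + u) * fr (v j)) k =
        coeff 0 (T k) + cuK (fun j => u * fr (v j)) k := by
      rw [← e1]
      unfold cuK
      simp only [add_mul, map_add]
      ring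
    show RegAt q (coeff 0 (T0 k) + cuK (fun j => (coeff 0 U + u) * fr (v j)) k)
    rw [e2]
    refine (hT k 0).add ?_
    exact ((hu.mul (RegAt.fr q _)).DK _).sub ((hu.mul (RegAt.fr q _)).DK _)
  · intro k
    have := k0 k 0
    simpa using this
  · have := congrArg (coeff 0) z0
    rw [coeff_sum, coeff_zero] at this
    rw [← this]
    refine Finset.sum_congr rfl fun k _ => ?_
    rw [coeff_mulC]
  · have h1 := congrArg (coeff 0) d0
    rw [coeff_dvg, hH, coeff_map, coeff_G0] at h1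
    have h2 : dvK (fun k => coeff 0 (T0 k)) =
        - (fr : MvPolynomial (Fin 3) ℂ →+* Kf) (homogeneousComponent (0 : Fin 3 →₀ ℕ).degree
          (coeff 0 G)) := by
      rw [h1, neg_neg]
    rw [h2, map_zero, homogeneousComponent_zero, map_neg]
    show - fr (C (coeff 0 (coeff 0 G))) = _
    rw [fr_C]
    rfl

end MPb07157.OK
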