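import Pool.Agent.Lib.MP_b07157_agB.Loc

/-!
# The local lemma at resonant points (`3 M = d`)
-/

noncomputable section

namespace MPb07157.OB

open MvPolynomial MPb07157Q

variable {f P : MvPolynomial (Fin 3) ℂ} {v : Fin 3 → MvPolynomial (Fin 3) ℂ} {d n : ℕ}

/-- The additional relation for Laurent polynomials: `t_x / x` is the divergence of a vector field
which kills `f`, up to terms of weight `≥ 0`. -/
def RL (f : MvPolynomial (Fin 3) ℂ) (i j : Fin 3) (M : ℕ) (t : Fin 3 → La) : Prop :=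
  ∃ η : Fin 3 → La, (∀ k, Reg j (η k)) ∧ (∀ k, Hm td 1 (η k)) ∧
    Ge (wt i) M (∑ k, η k * D k (io f)) ∧ Ge (wt i) 0 (sg (-ex i) 1 * t i - dv η)

namespace LocR

variable {i : Fin 3} {M μ : ℕ}

theorem hm_of_mul {l : (Fin 3 → ℤ) →+ ℤ} {a F : La} {k k' : ℤ} (hF : Hm l k' F) (hF0 : F ≠ 0)
    (h : Hm l k (F * a)) : Hm l (k - k') a := by
  have h1 := gc_mul_hm hF (k - k') a
  rw [sub_add_cancel, mul_comm a F, h.gc_eq, mul_comm F a] at h1
  have h2 := mul_right_cancel₀ hF0 h1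
  rw [h2]
  exact gc_hm _ _ _

/-- The components of a vector field of weight `k` which kills `f` up to high weight. -/
theorem kill_low' (h : Dat f P v d n) (hV : Vert f P v i M μ) {k : ℤ} {t : Fin 3 → La}
    (kt : Ge (wt i) (k + M + 1) (∑ k, t k * D k (io f))) (h0 : Ge (wt i) k (t i))
    (h1 : Ge (wt i) (k + 1) (t (i + 1))) (h2 : Ge (wt i) (k + 1) (t (i + 2))) :
    gc (wt i) k (t i) * gc (wt i) μ (io (v i)) +
      gc (wt i) (k + 1) (t (i + 1)) * gc (wt i) ((μ : ℤ) - 1) (io (v (i + 1))) +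
      gc (wt i) (k + 1) (t (i + 2)) * gc (wt i) ((μ : ℤ) - 1) (io (v (i + 2))) = 0 := by
  have k1 : gc (wt i) (k + M) (∑ k, t k * D k (io f)) = 0 := gc_eq_zero_of_lt kt (by omega)
  rw [sum3 i, map_add, map_add] at k1
  have a0 : gc (wt i) (k + M) (t i * D i (io f)) =
      gc (wt i) k (t i) * D i (gc (wt i) M (io f)) := by
    have := gc_mul_low h0 (hV.f1.D i)
    rw [wt_ex_self, sub_zero] at this
    rw [this, ← gc_D, wt_ex_self, sub_zero]
  have a1 : gc (wt i) (k + M) (t (i + 1) * D (i + 1) (io f)) =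
      gc (wt i) (k + 1) (t (i + 1)) * D (i + 1) (gc (wt i) M (io f)) := by
    have := gc_mul_low h1 (hV.f1.D (i + 1))
    rw [wt_ex_one, show k + 1 + ((M : ℤ) - 1) = k + M by ring] at this
    rw [this, ← gc_D, wt_ex_one]
  have a2 : gc (wt i) (k + M) (t (i + 2) * D (i + 2) (io f)) =
      gc (wt i) (k + 1) (t (i + 2)) * D (i + 2) (gc (wt i) M (io f)) := by
    have := gc_mul_low h2 (hV.f1.D (i + 2))
    rw [wt_ex_two, show k + 1 + ((M : ℤ) - 1) = k + M by ring] at this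
    rw [this, ← gc_D, wt_ex_two]
  rw [a0, a1, a2] at k1
  have l0 := LocN.low_rel h hV i
  have l1 := LocN.low_rel h hV (i + 1)
  have l2 := LocN.low_rel h hV (i + 2)
  rw [wt_ex_self, sub_zero] at l0
  rw [wt_ex_one] at l1
  rw [wt_ex_two] at l2
  apply mul_left_cancel₀ hV.f2
  rw [mul_zero]
  linear_combination gc (wt i) μ (io P) * k1 - gc (wt i) k (t i) * l0 -
    gc (wt i) (k + 1) (t (i + 1)) * l1 - gc (wt i) (k + 1) (t (i + 2)) * l2

/-- The decomposition of a vector field which kills the lowest part of `f`. -/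
theorem dec_low (h : Dat f P v d n) (hV : Vert f P v i M μ) {j : Fin 3} (hj : j ≠ i)
    {tx ty tz : La} (rx : Reg j tx) (ry : Reg j ty) (rz : Reg j tz)
    (kt : tx * gc (wt i) μ (io (v i)) + ty * gc (wt i) ((μ : ℤ) - 1) (io (v (i + 1))) +
      tz * gc (wt i) ((μ : ℤ) - 1) (io (v (i + 2))) = 0) :
    ∃ b, Reg j b ∧ sg (ex (i + 1)) 1 * tz - sg (ex (i + 2)) 1 * ty = gc (wt i) μ (io P) * b ∧
      gc (wt i) ((μ : ℤ) - 1) (io (v (i + 1))) * b =
        (M : ℂ) • tz + ((d : ℂ) - M) • (sg (-ex i) 1 * sg (ex (i + 2)) 1 * tx) ∧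
      gc (wt i) ((μ : ℤ) - 1) (io (v (i + 2))) * b =
        -((M : ℂ) • ty + ((d : ℂ) - M) • (sg (-ex i) 1 * sg (ex (i + 1)) 1 * tx)) := by
  obtain ⟨x1, x2⟩ := LocN.det_mul h hV kt
  have rq : ∀ {l : Fin 3} {a b : La}, Reg j a → Reg j b →
      Reg j ((M : ℂ) • a + ((d : ℂ) - M) • (sg (-ex i) 1 * sg (ex l) 1 * b)) := by
    intro l a b ha hb
    exact (ha.smul _).add (((LocN.reg_neg_ex hj 1).mul (LocN.reg_sg_ex j l 1)).mul hb |>.smul _)
  have rd : Reg j (sg (ex (i + 1)) 1 * tz - sg (ex (i + 2)) 1 * ty) :=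
    ((LocN.reg_sg_ex j _ 1).mul rz).sub ((LocN.reg_sg_ex j _ 1).mul ry)
  obtain ⟨b, rb, hb⟩ := hV.cop j hj _ rd ⟨_, rq rz rx, x1⟩ ⟨_, (rq ry rx).neg, x2⟩
  refine ⟨b, rb, hb, ?_, ?_⟩
  · apply mul_left_cancel₀ hV.P2
    rw [← x1, hb]
    ring
  · apply mul_left_cancel₀ hV.P2
    rw [← x2, hb]
    ring

/-- The divergence of such a vector field. -/
theorem div_low (h3 : 3 * M = d) {w : ℤ} {tx ty tz vy vz b : La} (e0 : Hm td 1 tx)
    (w0 : Hm (wt i) w tx)
    (hz : vy * b = (M : ℂ) • tz + ((d : ℂ) - M) • (sg (-ex i) 1 * sg (ex (i + 2)) 1 * tx))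
    (hy : vz * b = -((M : ℂ) • ty + ((d : ℂ) - M) • (sg (-ex i) 1 * sg (ex (i + 1)) 1 * tx))) :
    (M : ℂ) • (D i tx + D (i + 1) ty + D (i + 2) tz) =
      -(((3 * (w + 1) * M : ℤ) : ℂ) • (sg (-ex i) 1 * tx)) -
        (D (i + 1) (b * vz) - D (i + 2) (b * vy)) := by
  have hu : sg (ex i) 1 * sg (-ex i) 1 = (1 : La) := by
    rw [sg_mul_sg, add_neg_cancel, one_mul, one_eq_sg]
  set A : La := sg (-ex i) 1 * tx with hA
  have a1 : Hm td 0 A := by
    have := (Hm.sg (l := td) (m := -ex i) (k := -1) (by rw [map_neg, td_ex]) 1).mul e0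
    rwa [neg_add_cancel] at this
  have a2 : Hm (wt i) w A := by
    have := (Hm.sg (l := wt i) (m := -ex i) (k := 0) (by rw [map_neg, wt_ex_self, neg_zero]) 1).mul w0
    rwa [zero_add] at this
  have b1 := euler_td a1 i
  have b2 := euler_wt i a2
  have c1 : tx = sg (ex i) 1 * A := by rw [hA, ← mul_assoc, hu, one_mul]
  have s1 : ∀ (c : ℂ) (u : La), c • u = algebraMap ℂ La c * u := fun c u => Algebra.smul_def c u
  have hd : (d : ℂ) - M = ((2 * M : ℕ) : ℂ) := by
    rw [← h3]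
    push_cast
    ring
  have hz' : (M : ℂ) • tz = b * vy - ((2 * M : ℕ) : ℂ) • (sg (ex (i + 2)) 1 * A) := by
    rw [mul_comm b, hz, hd, hA, mul_assoc, mul_left_comm (sg (ex (i + 2)) 1)]
    abel
  have hy' : (M : ℂ) • ty = -(b * vz) - ((2 * M : ℕ) : ℂ) • (sg (ex (i + 1)) 1 * A) := by
    rw [mul_comm b, hy, hd, hA, mul_assoc, mul_left_comm (sg (ex (i + 1)) 1)]
    abel
  have e1 := congrArg (D (i + 1)) hy'
  have e2 := congrArg (D (i + 2)) hz'
  rw [Derivation.map_smul, map_sub, map_neg, Derivation.map_smul, D_mul (i + 1) (sg _ 1),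
    LocN.D_sg_same] at e1
  rw [Derivation.map_smul, map_sub, Derivation.map_smul, D_mul (i + 2) (sg _ 1),
    LocN.D_sg_same] at e2
  rw [smul_add, smul_add, e1, e2, c1, D_mul, LocN.D_sg_same]
  rw [s1] at b1 b2
  rw [s1, s1, s1, s1]
  simp only [map_natCast, map_mul, map_add, map_intCast, map_one, map_ofNat, Nat.cast_mul,
    Nat.cast_ofNat, Int.cast_mul, Int.cast_add, Int.cast_one, Int.cast_ofNat, Int.cast_natCast,
    Int.cast_zero, map_zero, zero_mul] at b1 b2 ⊢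
  linear_combination (M : La) * b1 - 3 * (M : La) * b2

theorem inv_mul_cancel (i : Fin 3) : sg (ex i) 1 * sg (-ex i) 1 = (1 : La) := by
  rw [sg_mul_sg, add_neg_cancel, one_mul, one_eq_sg]

theorem hm_inv (i : Fin 3) : Hm (wt i) 0 (sg (-ex i) 1) :=
  Hm.sg (by rw [map_neg, wt_ex_self, neg_zero]) 1

theorem gc_dv (w : ℤ) (t : Fin 3 → La) : gc (wt i) w (dv t) =
    D i (gc (wt i) w (t i)) + D (i + 1) (gc (wt i) (w + 1) (t (i + 1))) +
      D (i + 2) (gc (wt i) (w + 1) (t (i + 2))) := by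
  unfold dv
  rw [sum3 i, map_add, map_add]
  have c0 := gc_D (wt i) w i (t i)
  rw [wt_ex_self, sub_zero] at c0
  have c1 := gc_D (wt i) (w + 1) (i + 1) (t (i + 1))
  rw [wt_ex_one, add_sub_cancel_right] at c1
  have c2 := gc_D (wt i) (w + 1) (i + 2) (t (i + 2))
  rw [wt_ex_two, add_sub_cancel_right] at c2
  rw [c0, c1, c2]

theorem hm_det {w : ℤ} {ty tz : La} (hy : Hm (wt i) (w + 1) ty) (hz : Hm (wt i) (w + 1) tz) :
    Hm (wt i) (w + 2) (sg (ex (i + 1)) 1 * tz - sg (ex (i + 2)) 1 * ty) := by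
  have := (LocN.hm_sg_ex_one.mul hz).sub (LocN.hm_sg_ex_two.mul hy)
  rwa [show (1 : ℤ) + (w + 1) = w + 2 by ring] at this

theorem hm_det' {ty tz : La} (hy : Hm td 1 ty) (hz : Hm td 1 tz) :
    Hm td 2 (sg (ex (i + 1)) 1 * tz - sg (ex (i + 2)) 1 * ty) := by
  have := ((Hm.sg (td_ex (i + 1)) 1).mul hz).sub ((Hm.sg (td_ex (i + 2)) 1).mul hy)
  rwa [show (1 : ℤ) + 1 = 2 by norm_num] at this

/-- At a resonant point the additional relation makes the part of weight `-1` of `t_x` the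
`x`-component of a curl. -/
theorem res_low (h : Dat f P v d n) (hV : Vert f P v i M μ) (h3 : 3 * M = d) {j : Fin 3}
    (hj : j ≠ i) {tx : La} (htx : Ge (wt i) (-1) tx) (N : ℕ) : ∀ η : Fin 3 → La,
    (∀ k, Reg j (η k)) → (∀ k, Hm td 1 (η k)) → Ge (wt i) M (∑ k, η k * D k (io f)) →
    Ge (wt i) 0 (sg (-ex i) 1 * tx - dv η) → Ge (wt i) (-1 - N) (η i) →
    Ge (wt i) (-N) (η (i + 1)) → Ge (wt i) (-N) (η (i + 2)) →
    ∃ g, Reg j g ∧ Hm td (3 - n) g ∧ Hm (wt i) (1 - μ) g ∧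
      D (i + 1) (g * gc (wt i) ((μ : ℤ) - 1) (io (v (i + 2)))) -
        D (i + 2) (g * gc (wt i) ((μ : ℤ) - 1) (io (v (i + 1)))) = gc (wt i) (-1) tx := by
  have hM : (M : ℂ) ≠ 0 := by
    have := h.hd
    have : M ≠ 0 := by omega
    exact_mod_cast this
  have hu := inv_mul_cancel i
  have hPm := gc_hm (wt i) (μ : ℤ) (io P)
  have hPd := LocN.hm_F (i := i) (μ := μ) h
  have s1 : ∀ (c : ℂ) (u : La), c • u = algebraMap ℂ La c * u := fun c u => Algebra.smul_def c u
  induction N with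
  | zero =>
    intro η rη eη kη dη w0 w1 w2
    rw [Nat.cast_zero, sub_zero] at w0
    rw [Nat.cast_zero, neg_zero] at w1 w2
    have k1 := kill_low' (k := -1) h hV (by rwa [show (-1 : ℤ) + M + 1 = M by ring]) w0
      (by simpa using w1) (by simpa using w2)
    obtain ⟨b, rb, hb, b1, b2⟩ := dec_low h hV hj ((rη i).gc _ _) ((rη (i + 1)).gc _ _)
      ((rη (i + 2)).gc _ _) k1
    have m1 := hm_of_mul hPm hV.P2 (by rw [← hb]; exact hm_det (gc_hm _ _ _) (gc_hm _ _ _))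
    have m2 := hm_of_mul hPd hV.P2 (by rw [← hb]; exact hm_det' ((eη _).gc _ _) ((eη _).gc _ _))
    have e1 := div_low h3 ((eη i).gc _ _) (gc_hm _ _ _) b1 b2
    have e2 : gc (wt i) (-1) (sg (-ex i) 1 * tx - dv η) = 0 := gc_eq_zero_of_lt dη (by omega)
    rw [map_sub, gc_dv, mul_comm, ← add_zero (-1 : ℤ), gc_mul_hm (hm_inv i), add_zero,
      sub_eq_zero, mul_comm] at e2
    rw [← e2] at e1
    rw [show (3 * ((-1 : ℤ) + 1) * M : ℤ) = 0 by ring, Int.cast_zero, zero_smul, neg_zero,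
      zero_sub] at e1
    refine ⟨(-(M : ℂ)⁻¹) • (sg (ex i) 1 * b), ((LocN.reg_sg_ex j i 1).mul rb).smul _, ?_, ?_, ?_⟩
    · have := ((Hm.sg (td_ex i) 1).mul m2).smul (-(M : ℂ)⁻¹)
      rwa [show (1 : ℤ) + (2 - n) = 3 - n by ring] at this
    · have := ((Hm.sg (wt_ex_self i) 1).mul m1).smul (-(M : ℂ)⁻¹)
      rwa [show (0 : ℤ) + (-1 + 2 - μ) = 1 - μ by ring] at this
    · have e3 : ∀ a : La, (-(M : ℂ)⁻¹) • (sg (ex i) 1 * b) * a =
          (-(M : ℂ)⁻¹) • (sg (ex i) 1 * (b * a)) := by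
        intro a
        rw [smul_mul_assoc, mul_assoc]
      rw [e3, e3, Derivation.map_smul, Derivation.map_smul, D_mul, D_mul (i + 2) (sg _ 1),
        LocN.D_sg_ne (f3n1 i), LocN.D_sg_ne (f3n2 i), mul_zero, mul_zero, add_zero, add_zero,
        ← smul_sub, ← mul_sub]
      have e4 : D (i + 1) (b * gc (wt i) ((μ : ℤ) - 1) (io (v (i + 2)))) -
          D (i + 2) (b * gc (wt i) ((μ : ℤ) - 1) (io (v (i + 1)))) =
          -((M : ℂ) • (sg (-ex i) 1 * gc (wt i) (-1) tx)) := by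
        rw [e1, neg_neg]
      rw [e4, mul_neg, mul_smul_comm, ← mul_assoc, hu, one_mul, smul_neg, smul_smul, neg_mul,
        inv_mul_cancel₀ hM, neg_smul, neg_neg, one_smul]
  | succ N ih =>
    intro η rη eη kη dη w0 w1 w2
    set w : ℤ := -1 - ((N + 1 : ℕ) : ℤ) with hw
    have hw1 : -((N + 1 : ℕ) : ℤ) = w + 1 := by rw [hw]; ring
    rw [hw1] at w1 w2
    have hw2 : w + 1 < 0 := by
      rw [← hw1]
      push_cast
      omega
    have k1 := kill_low' (k := w) h hV (kη.mono (by omega)) w0 w1 w2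
    obtain ⟨b, rb, hb, b1, b2⟩ := dec_low h hV hj ((rη i).gc _ _) ((rη (i + 1)).gc _ _)
      ((rη (i + 2)).gc _ _) k1
    have m1 := hm_of_mul hPm hV.P2 (by rw [← hb]; exact hm_det (gc_hm _ _ _) (gc_hm _ _ _))
    have m2 := hm_of_mul hPd hV.P2 (by rw [← hb]; exact hm_det' ((eη _).gc _ _) ((eη _).gc _ _))
    have e1 := div_low h3 ((eη i).gc _ _) (gc_hm _ _ _) b1 b2
    have e2 : gc (wt i) w (dv η) = 0 := by
      have a1 : Ge (wt i) (-1) (sg (-ex i) 1 * tx) := by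
        have := (hm_inv i).ge.mul htx
        rwa [zero_add] at this
      have a2 : dv η = sg (-ex i) 1 * tx - (sg (-ex i) 1 * tx - dv η) := by ring
      rw [a2]
      exact gc_eq_zero_of_lt (a1.sub (dη.mono (by norm_num))) (by omega)
    rw [gc_dv] at e2
    rw [e2, smul_zero] at e1
    -- the curl
    have hc0 : ((d : ℂ) * ((w : ℂ) + 1)) ≠ 0 := by
      apply mul_ne_zero
      · exact_mod_cast h.hd.ne'
      · exact_mod_cast hw2.ne
    set c : ℂ := -((d : ℂ) * ((w : ℂ) + 1))⁻¹ with hc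
    set g : La := c • (sg (ex i) 1 * b) with hg
    have rg : Reg j g := ((LocN.reg_sg_ex j i 1).mul rb).smul _
    have eg : Hm td (3 - n) g := by
      have := ((Hm.sg (td_ex i) 1).mul m2).smul c
      rwa [show (1 : ℤ) + (2 - n) = 3 - n by ring] at this
    have wg : Hm (wt i) (w + 2 - μ) g := by
      have := ((Hm.sg (wt_ex_self i) 1).mul m1).smul c
      rwa [zero_add] at this
    obtain ⟨o0, o1, o2⟩ := LocN.ge_cu h hV wg.ge
    rw [show w + 2 - (μ : ℤ) + μ - 2 = w by ring] at o0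
    rw [show w + 2 - (μ : ℤ) + μ - 1 = w + 1 by ring] at o1 o2
    have k2 := LocN.kill_low h hV (cu_kills h g) o0 o1 o2
    have rcu := fun k => LocAux.cu_reg rg v k
    obtain ⟨b', _, hb', b1', b2'⟩ := dec_low h hV hj ((rcu i).gc _ _) ((rcu (i + 1)).gc _ _)
      ((rcu (i + 2)).gc _ _) k2
    have y1 := LocN.det_cu_low h hV eg wg.ge
    rw [wg.gc_eq, show w + 2 - (μ : ℤ) + μ = w + 1 + 1 by ring, map_sub,
      mul_comm (sg (ex (i + 1)) 1), mul_comm (sg (ex (i + 2)) 1),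
      gc_mul_hm LocN.hm_sg_ex_one, gc_mul_hm LocN.hm_sg_ex_two,
      mul_comm _ (sg (ex (i + 1)) 1), mul_comm _ (sg (ex (i + 2)) 1), hb'] at y1
    have y2 : b' = b := by
      apply mul_left_cancel₀ hV.P2
      apply mul_left_cancel₀ (LocN.sg_ne_zero (ex i))
      rw [y1, hg, smul_mul_assoc, smul_smul]
      have a1 : ((3 * M - d * (μ + (w + 2 - μ)) : ℤ) : ℂ) * c = 1 := by
        have a2 : ((3 * M - d * (μ + (w + 2 - μ)) : ℤ) : ℂ) = -((d : ℂ) * ((w : ℂ) + 1)) := by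
          rw [← h3]
          push_cast
          ring
        rw [a2, hc, neg_mul_neg, mul_inv_cancel₀ hc0]
      rw [a1, one_smul]
      ring
    rw [y2] at b1' b2'
    have e1' := div_low h3 ((LocAux.cu_hm h eg i).gc _ _) (gc_hm _ _ _) b1' b2'
    have e2' : gc (wt i) w (dv (cu fun j => g * io (v j))) = 0 := by rw [dv_cu, map_zero]
    rw [gc_dv] at e2'
    rw [e2', smul_zero] at e1'
    -- comparison
    have z0 : gc (wt i) w (η i) = gc (wt i) w (cu (fun j => g * io (v j)) i) := by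
      have a1 : ((3 * (w + 1) * M : ℤ) : ℂ) ≠ 0 := by
        have : (M : ℤ) ≠ 0 := by exact_mod_cast hM
        have : (3 * (w + 1) * M : ℤ) ≠ 0 := mul_ne_zero (mul_ne_zero (by norm_num) hw2.ne) this
        exact_mod_cast this
      have a2 := (neg_eq_iff_add_eq_zero.1 (sub_eq_zero.1 e1.symm)).trans
        (neg_eq_iff_add_eq_zero.1 (sub_eq_zero.1 e1'.symm)).symm
      have a3 := add_right_cancel a2
      have a4 := smul_right_injective La a1 a3
      have a5 := congrArg (fun u => sg (ex i) 1 * u) a4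
      simp only [← mul_assoc, hu, one_mul] at a5
      exact a5
    have z2 : gc (wt i) (w + 1) (η (i + 2)) =
        gc (wt i) (w + 1) (cu (fun j => g * io (v j)) (i + 2)) := by
      rw [b1, z0] at b1'
      exact smul_right_injective La hM (add_right_cancel b1')
    have z1 : gc (wt i) (w + 1) (η (i + 1)) =
        gc (wt i) (w + 1) (cu (fun j => g * io (v j)) (i + 1)) := by
      rw [b2, z0] at b2'
      exact smul_right_injective La hM (add_right_cancel (neg_injective b2'))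
    have q0 : ∀ k u, Ge (wt i) u (η k) → Ge (wt i) u (cu (fun j => g * io (v j)) k) →
        gc (wt i) u (η k) = gc (wt i) u (cu (fun j => g * io (v j)) k) →
        Ge (wt i) (u + 1) (η k - cu (fun j => g * io (v j)) k) := by
      intro k u a1 a2 a3
      apply (a1.sub a2).succ
      rw [map_sub, a3, sub_self]
    apply ih (fun k => η k - cu (fun j => g * io (v j)) k)
    · exact fun k => (rη k).sub (rcu k)
    · exact fun k => (eη k).sub (LocAux.cu_hm h eg k)
    · have a1 : ∑ k, (η k - cu (fun j => g * io (v j)) k) * D k (io f) =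
          ∑ k, η k * D k (io f) := by
        simp only [sub_mul]
        rw [Finset.sum_sub_distrib, cu_kills h g, sub_zero]
      rw [a1]
      exact kη
    · rw [LocAux.dv_sub, dv_cu, sub_zero]
      exact dη
    · have := q0 i w w0 o0 z0
      rwa [show w + 1 = -1 - (N : ℤ) by rw [hw]; push_cast; ring] at this
    · have := q0 (i + 1) (w + 1) w1 o1 z1
      rwa [show w + 1 + 1 = -(N : ℤ) by rw [hw]; push_cast; ring] at this
    · have := q0 (i + 2) (w + 1) w2 o2 z2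
      rwa [show w + 1 + 1 = -(N : ℤ) by rw [hw]; push_cast; ring] at this

theorem cf_xD' (k : Fin 3) {e : ℤ} {a : La} (h : Hm (co k) e a) :
    sg (ex k) 1 * D k a = (e : ℂ) • a := by
  apply La.ext'
  intro m
  rw [cf_xD, map_smul, smul_eq_mul]
  by_cases h1 : cf m a = 0
  · rw [h1, mul_zero, mul_zero]
  · have := h m h1
    rw [co_apply] at this
    rw [this]

/-- A solution of `M f ∂_k ρ = ρ ∂_k f` is regular in `x_k`. -/
theorem reg_of_log {k : Fin 3} {F ρ : La} (hF : F ≠ 0) (rF : Reg k F) (hM : 0 < M)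
    (h : (M : ℂ) • (F * D k ρ) = ρ * D k F) : Reg k ρ := by
  by_cases hρ : ρ = 0
  · rw [hρ]
    exact Reg.zero k
  obtain ⟨e, he, he0⟩ := exists_order (co k) hρ
  obtain ⟨p, hp, hp0⟩ := exists_order (co k) hF
  have hc : co k (ex k) = 1 := ex_same k
  have a1 : 0 ≤ p := by
    by_contra hcon
    exact hp0 (gc_eq_zero_of_lt rF (by omega))
  have b1 := gc_mul_low hp (he.D k)
  have b2 := gc_mul_low he (hp.D k)
  rw [gc_D] at b1 b2
  have b3 := congrArg (gc (co k) (p + (e - co k (ex k)))) h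
  rw [map_smul, b1, show p + (e - co k (ex k)) = e + (p - co k (ex k)) by ring, b2] at b3
  have c1 := cf_xD' k (gc_hm (co k) e ρ)
  have c2 := cf_xD' k (gc_hm (co k) p F)
  have s1 : ∀ (c : ℂ) (u : La), c • u = algebraMap ℂ La c * u := fun c u => Algebra.smul_def c u
  have d1 : algebraMap ℂ La ((M : ℂ) * e - p) * (gc (co k) p F * gc (co k) e ρ) = 0 := by
    rw [s1] at b3 c1 c2
    rw [map_sub, map_mul]
    linear_combination sg (ex k) 1 * b3 - algebraMap ℂ La (M : ℂ) * gc (co k) p F * c1 +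
      gc (co k) e ρ * c2
  have d2 : ((M : ℂ) * e - p) = 0 := by
    have := (mul_eq_zero.1 d1).resolve_right (mul_ne_zero hp0 he0)
    exact (map_eq_zero_iff _ (algebraMap ℂ La).injective).1 this
  have d3 : (M : ℤ) * e = p := by
    have : ((M * e - p : ℤ) : ℂ) = 0 := by
      push_cast
      exact d2
    have := Int.cast_eq_zero.1 this
    omega
  have d4 : 0 ≤ e := by
    by_contra hcon
    have : (M : ℤ) * e < 0 := mul_neg_of_pos_of_neg (by exact_mod_cast hM) (by omega)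
    omega
  exact he.mono d4

/-- At a resonant point the curl of `δ v` determines `δ`. -/
theorem inj (h : Dat f P v d n) (hV : Vert f P v i M μ) (h3 : 3 * M = d) (hμ : 2 ≤ μ) {δ : La}
    (eδ : Hm td (3 - n) δ) (wδ : Hm (wt i) (1 - μ) δ)
    (h0 : D (i + 1) (δ * gc (wt i) ((μ : ℤ) - 1) (io (v (i + 2)))) -
      D (i + 2) (δ * gc (wt i) ((μ : ℤ) - 1) (io (v (i + 1)))) = 0) : δ = 0 := by
  have hM : (M : ℂ) ≠ 0 := by
    have := h.hd
    have : M ≠ 0 := by omega
    exact_mod_cast this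
  have s1 : ∀ (c : ℂ) (u : La), c • u = algebraMap ℂ La c * u := fun c u => Algebra.smul_def c u
  have v0 := LocN.ge_v h hV i
  have v1 := LocN.ge_v h hV (i + 1)
  have v2 := LocN.ge_v h hV (i + 2)
  rw [wt_ex_self, sub_zero] at v0
  rw [wt_ex_one] at v1
  rw [wt_ex_two] at v2
  set X := gc (wt i) (μ : ℤ) (io (v i)) with hX
  set Y := gc (wt i) ((μ : ℤ) - 1) (io (v (i + 1))) with hY
  set Z := gc (wt i) ((μ : ℤ) - 1) (io (v (i + 2))) with hZ
  obtain ⟨o0, o1, o2⟩ := LocN.ge_cu h hV wδ.ge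
  rw [show (1 : ℤ) - (μ : ℤ) + μ - 2 = -1 by ring] at o0
  rw [show (1 : ℤ) - (μ : ℤ) + μ - 1 = -1 + 1 by ring] at o1 o2
  have k2 := LocN.kill_low h hV (cu_kills h δ) o0 o1 o2
  have m0 : gc (wt i) 1 (δ * io (v i)) = δ * X := by
    have := gc_mul_low wδ.ge v0
    rwa [wδ.gc_eq, show (1 : ℤ) - μ + μ = 1 by ring] at this
  have m1 : gc (wt i) 0 (δ * io (v (i + 1))) = δ * Y := by
    have := gc_mul_low wδ.ge v1
    rwa [wδ.gc_eq, show (1 : ℤ) - μ + (μ - 1) = 0 by ring] at this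
  have m2 : gc (wt i) 0 (δ * io (v (i + 2))) = δ * Z := by
    have := gc_mul_low wδ.ge v2
    rwa [wδ.gc_eq, show (1 : ℤ) - μ + (μ - 1) = 0 by ring] at this
  have D0 : ∀ (w : ℤ) (a : La), gc (wt i) w (D i a) = D i (gc (wt i) w a) := by
    intro w a
    have := gc_D (wt i) w i a
    rwa [wt_ex_self, sub_zero] at this
  have D1 : ∀ (w : ℤ) (a : La), gc (wt i) w (D (i + 1) a) = D (i + 1) (gc (wt i) (w + 1) a) := by
    intro w a
    have := gc_D (wt i) (w + 1) (i + 1) a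
    rwa [wt_ex_one, add_sub_cancel_right] at this
  have D2 : ∀ (w : ℤ) (a : La), gc (wt i) w (D (i + 2) a) = D (i + 2) (gc (wt i) (w + 1) a) := by
    intro w a
    have := gc_D (wt i) (w + 1) (i + 2) a
    rwa [wt_ex_two, add_sub_cancel_right] at this
  have c0 : gc (wt i) (-1) (cu (fun j => δ * io (v j)) i) = 0 := by
    unfold cu
    rw [map_sub, D1, D2, neg_add_cancel, m1, m2, h0]
  have c1 : gc (wt i) (-1 + 1) (cu (fun j => δ * io (v j)) (i + 1)) =
      D (i + 2) (δ * X) - D i (δ * Z) := by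
    unfold cu
    rw [f3a, f3b, map_sub, D2, D0, neg_add_cancel, zero_add, m0, m2]
  have c2 : gc (wt i) (-1 + 1) (cu (fun j => δ * io (v j)) (i + 2)) =
      D i (δ * Y) - D (i + 1) (δ * X) := by
    unfold cu
    rw [f3c, f3d, map_sub, D1, D0, neg_add_cancel, zero_add, m0, m1]
  have y1 := LocN.det_cu_low h hV eδ wδ.ge
  rw [wδ.gc_eq, show (1 : ℤ) - (μ : ℤ) + μ = -1 + 1 + 1 by ring, map_sub,
    mul_comm (sg (ex (i + 1)) 1), mul_comm (sg (ex (i + 2)) 1),
    gc_mul_hm LocN.hm_sg_ex_one, gc_mul_hm LocN.hm_sg_ex_two,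
    mul_comm _ (sg (ex (i + 1)) 1), mul_comm _ (sg (ex (i + 2)) 1)] at y1
  have y2 : ((3 * M - d * (μ + (1 - μ)) : ℤ) : ℂ) = 0 := by
    have : (3 * M - d * (μ + (1 - μ)) : ℤ) = 0 := by
      rw [← h3]
      push_cast
      ring
    rw [this, Int.cast_zero]
  rw [y2, zero_smul] at y1
  have y3 := (mul_eq_zero.1 y1).resolve_left (LocN.sg_ne_zero _)
  have x1 := LocN.det_mul h hV k2
  rw [y3, mul_zero, mul_zero, c0, mul_zero, smul_zero, add_zero, mul_zero, smul_zero,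
    add_zero] at x1
  have z2 : D i (δ * Y) - D (i + 1) (δ * X) = 0 := by
    rw [← c2]
    have := (mul_eq_zero.1 x1.1.symm).resolve_left hV.P2
    exact (smul_eq_zero.1 this).resolve_left hM
  have z1 : D (i + 2) (δ * X) - D i (δ * Z) = 0 := by
    rw [← c1]
    have := neg_eq_zero.1 ((mul_eq_zero.1 x1.2.symm).resolve_left hV.P2)
    exact (smul_eq_zero.1 this).resolve_left hM
  have hE := LocN.euler_low h hV
  have hE' := LocN.euler_x h hV
  rw [← hX] at hE'
  rw [← hY, ← hZ] at hE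
  set F := gc (wt i) (μ : ℤ) (io P) with hF
  have eY : Hm td 2 (δ * Y) := by
    rw [← m1]
    exact (LocN.hm_gv h eδ _).gc _ _
  have eZ : Hm td 2 (δ * Z) := by
    rw [← m2]
    exact (LocN.hm_gv h eδ _).gc _ _
  have tY := euler_td eY i
  have tZ := euler_td eZ i
  have hdM : (d : La) = 3 * (M : La) := by
    rw [← h3]
    push_cast
    ring
  rw [s1] at hE hE' tY tZ
  simp only [map_sub, map_natCast, Int.cast_ofNat, map_ofNat] at hE hE' tY tZ
  have e3 : (3 : La) ≠ 0 := by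
    rw [← map_ofNat (algebraMap ℂ La) 3]
    intro h4
    have := (map_eq_zero_iff _ (algebraMap ℂ La).injective).1 h4
    norm_num at this
  have hsum : sg (ex i) 1 * X + sg (ex (i + 1)) 1 * Y + sg (ex (i + 2)) 1 * Z = (d : La) * F := by
    linear_combination hE + hE'
  have r1 : (M : La) * D (i + 1) (δ * F) = δ * Y := by
    have a1 := congrArg (fun u => D (i + 1) (δ * u)) hsum
    have a2 : D (i + 1) (δ * ((d : La) * F)) = (d : La) * D (i + 1) (δ * F) := by
      have : δ * ((d : La) * F) = (d : ℂ) • (δ * F) := by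
        rw [s1, map_natCast]
        ring
      rw [this, Derivation.map_smul, s1, map_natCast]
    have a3 : D (i + 1) (δ * (sg (ex i) 1 * X + sg (ex (i + 1)) 1 * Y + sg (ex (i + 2)) 1 * Z)) =
        sg (ex i) 1 * D (i + 1) (δ * X) + (sg (ex (i + 1)) 1 * D (i + 1) (δ * Y) + δ * Y) +
          sg (ex (i + 2)) 1 * D (i + 1) (δ * Z) := by
      have e1 : δ * (sg (ex i) 1 * X + sg (ex (i + 1)) 1 * Y + sg (ex (i + 2)) 1 * Z) =
          sg (ex i) 1 * (δ * X) + sg (ex (i + 1)) 1 * (δ * Y) + sg (ex (i + 2)) 1 * (δ * Z) := by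
        ring
      rw [e1, map_add, map_add, D_mul, D_mul (i + 1) (sg (ex (i + 1)) 1),
        D_mul (i + 1) (sg (ex (i + 2)) 1), LocN.D_sg_same, LocN.D_sg_ne (f3n1 i),
        LocN.D_sg_ne (f3n3 i)]
      ring
    beta_reduce at a1
    rw [a2, a3, hdM] at a1
    apply mul_left_cancel₀ e3
    linear_combination -a1 - sg (ex i) 1 * z2 + sg (ex (i + 2)) 1 * h0 + tY
  have r2 : (M : La) * D (i + 2) (δ * F) = δ * Z := by
    have a1 := congrArg (fun u => D (i + 2) (δ * u)) hsum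
    have a2 : D (i + 2) (δ * ((d : La) * F)) = (d : La) * D (i + 2) (δ * F) := by
      have : δ * ((d : La) * F) = (d : ℂ) • (δ * F) := by
        rw [s1, map_natCast]
        ring
      rw [this, Derivation.map_smul, s1, map_natCast]
    have a3 : D (i + 2) (δ * (sg (ex i) 1 * X + sg (ex (i + 1)) 1 * Y + sg (ex (i + 2)) 1 * Z)) =
        sg (ex i) 1 * D (i + 2) (δ * X) + sg (ex (i + 1)) 1 * D (i + 2) (δ * Y) +
          (sg (ex (i + 2)) 1 * D (i + 2) (δ * Z) + δ * Z) := by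
      have e1 : δ * (sg (ex i) 1 * X + sg (ex (i + 1)) 1 * Y + sg (ex (i + 2)) 1 * Z) =
          sg (ex i) 1 * (δ * X) + sg (ex (i + 1)) 1 * (δ * Y) + sg (ex (i + 2)) 1 * (δ * Z) := by
        ring
      rw [e1, map_add, map_add, D_mul, D_mul (i + 2) (sg (ex (i + 1)) 1),
        D_mul (i + 2) (sg (ex (i + 2)) 1), LocN.D_sg_same, LocN.D_sg_ne (f3n2 i),
        LocN.D_sg_ne (f3n3 i).symm]
      ring
    beta_reduce at a1
    rw [a2, a3, hdM] at a1
    apply mul_left_cancel₀ e3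
    linear_combination -a1 + sg (ex i) 1 * z1 - sg (ex (i + 1)) 1 * h0 + tZ
  -- the order at the coordinate lines
  have l1 := LocN.low_rel h hV (i + 1)
  have l2 := LocN.low_rel h hV (i + 2)
  rw [wt_ex_one, ← hF, ← hY] at l1
  rw [wt_ex_two, ← hF, ← hZ] at l2
  have hMp : 0 < M := by
    have := h.hd
    omega
  have g1 : Reg (i + 1) (δ * F) := by
    apply reg_of_log (F := gc (wt i) M (io f)) hV.f2 ((Reg.io _ _).gc _ _) hMp
    rw [s1, map_natCast]
    linear_combination gc (wt i) (M : ℤ) (io f) * r1 - δ * l1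
  have g2 : Reg (i + 2) (δ * F) := by
    apply reg_of_log (F := gc (wt i) M (io f)) hV.f2 ((Reg.io _ _).gc _ _) hMp
    rw [s1, map_natCast]
    linear_combination gc (wt i) (M : ℤ) (io f) * r2 - δ * l2
  have q1 := LocN.cop_both hV g1 g2 (u₁ := (M : ℂ) • D (i + 1) (δ * F))
    (u₂ := (M : ℂ) • D (i + 2) (δ * F)) ((g1.D _).smul _) ((g2.D _).smul _) ((g1.D _).smul _)
    ((g2.D _).smul _) (by rw [s1, map_natCast, r1, ← hF, ← hY]; ring)
    (by rw [s1, map_natCast, r2, ← hF, ← hZ]; ring)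
  have q2 := wδ.mul (gc_hm (wt i) (μ : ℤ) (io P))
  rw [← hF, show (1 : ℤ) - μ + μ = 1 by ring] at q2
  have q3 : δ * F = 0 := by
    apply La.ext'
    intro m
    rw [map_zero]
    by_contra hm
    have a1 := q1 m hm
    have a2 := q2 m hm
    omega
  exact (mul_eq_zero.1 q3).resolve_right hV.P2

/-- The case which is excluded by the additional relation. -/
theorem res_contra (h : Dat f P v d n) (hV : Vert f P v i M μ) (h3 : 3 * M = d) (hμ : 2 ≤ μ)
    {g tx₁ tx₂ : La} (eg : Hm td (3 - n) g) (wg : Hm (wt i) (1 - μ) g)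
    (hn : ∀ m, cf m g ≠ 0 → m (i + 1) < 0 ∧ m (i + 2) < 0) (g0 : g ≠ 0)
    {g₁ g₂ : La} (r1 : Reg (i + 1) g₁) (e1 : Hm td (3 - n) g₁) (w1 : Hm (wt i) (1 - μ) g₁)
    (c1 : D (i + 1) (g₁ * gc (wt i) ((μ : ℤ) - 1) (io (v (i + 2)))) -
        D (i + 2) (g₁ * gc (wt i) ((μ : ℤ) - 1) (io (v (i + 1)))) = tx₁)
    (r2 : Reg (i + 2) g₂) (e2 : Hm td (3 - n) g₂) (w2 : Hm (wt i) (1 - μ) g₂)
    (c2 : D (i + 1) (g₂ * gc (wt i) ((μ : ℤ) - 1) (io (v (i + 2)))) -
        D (i + 2) (g₂ * gc (wt i) ((μ : ℤ) - 1) (io (v (i + 1)))) = tx₂)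
    (c : D (i + 1) (g * gc (wt i) ((μ : ℤ) - 1) (io (v (i + 2)))) -
        D (i + 2) (g * gc (wt i) ((μ : ℤ) - 1) (io (v (i + 1)))) = tx₁ - tx₂) : False := by
  have e : g₁ - g₂ - g = 0 := by
    apply inj h hV h3 hμ ((e1.sub e2).sub eg) ((w1.sub w2).sub wg)
    simp only [sub_mul, map_sub]
    linear_combination c1 - c2 - c
  obtain ⟨m, hm⟩ : ∃ m, cf m g ≠ 0 := by
    by_contra hcon
    push Not at hcon
    apply g0
    apply La.ext'
    intro m
    rw [hcon m, map_zero]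
  obtain ⟨a1, a2⟩ := hn m hm
  have e' := congrArg (cf m) e
  rw [map_sub, map_sub, map_zero] at e'
  have z1 : cf m g₁ = 0 := by
    by_contra hne
    have := r1 m hne
    rw [co_apply] at this
    omega
  have z2 : cf m g₂ = 0 := by
    by_contra hne
    have := r2 m hne
    rw [co_apply] at this
    omega
  rw [z1, z2, sub_zero, zero_sub, neg_eq_zero] at e'
  exact hm e'

end LocR

end MPb07157.OB
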