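import Pool.Agent.Lib.MP_b07157_agB2.LocA
import Pool.Agent.Lib.MP_b07157_agB3.LocR

/-!
# The local lemma for approximate solutions, including resonant points
-/

noncomputable section

namespace MPb07157.OB

open MvPolynomial MPb07157Q

variable {f P : MvPolynomial (Fin 3) ℂ} {v : Fin 3 → MvPolynomial (Fin 3) ℂ} {d n : ℕ}

namespace LocR

variable {i : Fin 3} {M μ : ℕ}

/-- The resonant case. -/
theorem res_apx (h : Dat f P v d n) (hV : Vert f P v i M μ) (h3 : 3 * M = d) (hμ : 2 ≤ μ)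
    {t₁ t₂ : Fin 3 → La} (R₁ : RL f i (i + 1) M t₁) (R₂ : RL f i (i + 2) M t₂)
    (p0 : Ge (wt i) (-1) (t₁ i)) (q0 : Ge (wt i) (-1) (t₂ i)) {g : La} (hg : Hm td (3 - n) g)
    (hs : Ge (wt i) (1 - μ) g) (hs0 : gc (wt i) (1 - μ) g ≠ 0)
    (hcu : Ge (wt i) 2 (t₁ i - t₂ i - cu (fun j => g * io (v j)) i))
    (hn : ∀ m, cf m g ≠ 0 → m (i + 1) < 0 ∧ m (i + 2) < 0) : False := by
  obtain ⟨η₁, rη₁, eη₁, kη₁, dη₁⟩ := R₁
  obtain ⟨η₂, rη₂, eη₂, kη₂, dη₂⟩ := R₂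
  have bd : ∀ η : Fin 3 → La, ∃ N : ℕ, Ge (wt i) (-1 - N) (η i) ∧ Ge (wt i) (-N) (η (i + 1)) ∧
      Ge (wt i) (-N) (η (i + 2)) := by
    intro η
    obtain ⟨a, ha⟩ := exists_ge (wt i) (η i)
    obtain ⟨b, hb⟩ := exists_ge (wt i) (η (i + 1))
    obtain ⟨c, hc⟩ := exists_ge (wt i) (η (i + 2))
    exact ⟨a.natAbs + b.natAbs + c.natAbs, ha.mono (by omega), hb.mono (by omega),
      hc.mono (by omega)⟩
  obtain ⟨N₁, a1, a2, a3⟩ := bd η₁
  obtain ⟨N₂, b1, b2, b3⟩ := bd η₂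
  obtain ⟨g₁, r1, e1, w1, c1⟩ := res_low h hV h3 (f3n1 i) p0 N₁ η₁ rη₁ eη₁ kη₁ dη₁ a1 a2 a3
  obtain ⟨g₂, r2, e2, w2, c2⟩ := res_low h hV h3 (f3n2 i) q0 N₂ η₂ rη₂ eη₂ kη₂ dη₂ b1 b2 b3
  have v1 := LocN.ge_v h hV (i + 1)
  have v2 := LocN.ge_v h hV (i + 2)
  rw [wt_ex_one] at v1
  rw [wt_ex_two] at v2
  have m1 : gc (wt i) 0 (g * io (v (i + 1))) =
      gc (wt i) (1 - μ) g * gc (wt i) ((μ : ℤ) - 1) (io (v (i + 1))) := by
    have := gc_mul_low hs v1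
    rwa [show (1 : ℤ) - μ + (μ - 1) = 0 by ring] at this
  have m2 : gc (wt i) 0 (g * io (v (i + 2))) =
      gc (wt i) (1 - μ) g * gc (wt i) ((μ : ℤ) - 1) (io (v (i + 2))) := by
    have := gc_mul_low hs v2
    rwa [show (1 : ℤ) - μ + (μ - 1) = 0 by ring] at this
  have D1 : ∀ (w : ℤ) (a : La), gc (wt i) w (D (i + 1) a) = D (i + 1) (gc (wt i) (w + 1) a) := by
    intro w a
    have := gc_D (wt i) (w + 1) (i + 1) a
    rwa [wt_ex_one, add_sub_cancel_right] at this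
  have D2 : ∀ (w : ℤ) (a : La), gc (wt i) w (D (i + 2) a) = D (i + 2) (gc (wt i) (w + 1) a) := by
    intro w a
    have := gc_D (wt i) (w + 1) (i + 2) a
    rwa [wt_ex_two, add_sub_cancel_right] at this
  have c := gc_eq_zero_of_lt hcu (by norm_num : (-1 : ℤ) < 2)
  unfold cu at c
  rw [map_sub, map_sub, map_sub, D1, D2, neg_add_cancel, m1, m2, sub_eq_zero] at c
  exact res_contra h hV h3 hμ (hg.gc _ _) (gc_hm _ _ _)
    (fun m hm => hn m (by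
      have := gc_hm _ _ _ m hm
      rwa [cf_gc_of_eq this] at hm)) hs0 r1 e1 w1 c1 r2 e2 w2 c2 c.symm

end LocR

/-- As `MPb07157.OB.loc_apx`, where the additional relation is assumed if `3 M = d`. -/
theorem loc_apx' (h : Dat f P v d n) {i : Fin 3} {M μ : ℕ} (hV : Vert f P v i M μ)
    {t₁ t₂ : Fin 3 → La} (h3 : 3 * M ≠ d ∨ (RL f i (i + 1) M t₁ ∧ RL f i (i + 2) M t₂))
    (r₁ : ∀ k, Reg (i + 1) (t₁ k))
    (r₂ : ∀ k, Reg (i + 2) (t₂ k)) (e₁ : ∀ k, Hm td 1 (t₁ k)) (e₂ : ∀ k, Hm td 1 (t₂ k))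
    (k₁ : Ge (wt i) (M + 1) (∑ k, t₁ k * D k (io f)))
    (k₂ : Ge (wt i) (M + 1) (∑ k, t₂ k * D k (io f))) {c : ℂ} (hc : c ≠ 0)
    (d₁ : Ge (wt i) 1 (dv t₁ - sg 0 c)) {g : La} (hg : Hm td (3 - n) g)
    (hcu : ∀ k, Ge (wt i) 2 (t₁ k - t₂ k - cu (fun j => g * io (v j)) k))
    (hn : ∀ m, cf m g ≠ 0 → m (i + 1) < 0 ∧ m (i + 2) < 0) :
    ∀ m, cf m g ≠ 0 → -(m (i + 1) + m (i + 2)) ≤ (μ : ℤ) - 3 := by
  intro m₀ hm₀
  by_contra hcon
  have hg0 : g ≠ 0 := by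
    rintro rfl
    exact hm₀ (map_zero _)
  obtain ⟨s, hs, hs0⟩ := exists_order (wt i) hg0
  have hsm : s ≤ 2 - μ := by
    have := hs m₀ hm₀
    rw [wt_apply] at this
    omega
  obtain ⟨m₁, hm₁⟩ : ∃ m, cf m (gc (wt i) s g) ≠ 0 := by
    by_contra hcon2
    push Not at hcon2
    apply hs0
    apply La.ext'
    intro m
    rw [hcon2 m, map_zero]
  have hw₁ := gc_hm (wt i) s g m₁ hm₁
  have hg₁ : cf m₁ g ≠ 0 := by rwa [cf_gc_of_eq hw₁] at hm₁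
  obtain ⟨ny, nz⟩ := hn m₁ hg₁
  have hs2 : s ≤ -2 := by
    rw [wt_apply] at hw₁
    omega
  -- orders of the curl
  obtain ⟨o0, o1, o2⟩ := LocN.ge_cu h hV hs
  set k : ℤ := s + μ - 2 with hk
  have hk0 : k ≤ 0 := by omega
  have o0 : Ge (wt i) k (t₁ i - t₂ i) := by
    have := (o0.mono (by omega : k ≤ s + μ - 2)).add ((hcu i).mono (by omega : k ≤ 2))
    rwa [add_sub_cancel] at this
  have o1' : Ge (wt i) (k + 1) (t₁ (i + 1) - t₂ (i + 1)) := by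
    have := (o1.mono (by omega : k + 1 ≤ s + μ - 1)).add
      ((hcu (i + 1)).mono (by omega : k + 1 ≤ 2))
    rwa [add_sub_cancel] at this
  have o2' : Ge (wt i) (k + 1) (t₁ (i + 2) - t₂ (i + 2)) := by
    have := (o2.mono (by omega : k + 1 ≤ s + μ - 1)).add
      ((hcu (i + 2)).mono (by omega : k + 1 ≤ 2))
    rwa [add_sub_cancel] at this
  obtain ⟨p0, q0⟩ := LocN.ge_low (r₁ i) (r₂ i) hk0 o0
  have hA : (Ge (wt i) (k + 1) (t₁ (i + 1)) ∧ Ge (wt i) (k + 1) (t₁ (i + 2))) ∧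
      (Ge (wt i) (k + 1) (t₂ (i + 1)) ∧ Ge (wt i) (k + 1) (t₂ (i + 2))) := by
    rcases lt_or_eq_of_le hk0 with hk1 | hk1
    · obtain ⟨a1, a2⟩ := LocN.ge_low (r₁ (i + 1)) (r₂ (i + 1)) (by omega) o1'
      obtain ⟨b1, b2⟩ := LocN.ge_low (r₁ (i + 2)) (r₂ (i + 2)) (by omega) o2'
      exact ⟨⟨a1, b1⟩, ⟨a2, b2⟩⟩
    · rw [hk1] at o1' o2' p0 q0 ⊢
      rw [zero_add] at o1' o2' ⊢
      have hμ : 2 ≤ μ := by omega
      constructor
      · apply LocA.ge_one h hV hμ e₁ k₁ p0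
        intro j hj
        rcases f3cases i j with rfl | rfl | rfl
        · exact absurd rfl hj
        · exact LocN.low_eq (r₁ _) (r₂ _) o1'
        · exact LocN.low_eq (r₁ _) (r₂ _) o2'
      · apply LocA.ge_one h hV hμ e₂ k₂ q0
        intro j hj
        rcases f3cases i j with rfl | rfl | rfl
        · exact absurd rfl hj
        · exact LocN.low_eq' (r₁ _) (r₂ _) o1'
        · exact LocN.low_eq' (r₁ _) (r₂ _) o2'
  obtain ⟨⟨p1, p2⟩, q1, q2⟩ := hA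
  -- the determinants
  have x1 := LocN.det_mul h hV (LocA.kill_low h hV hk0 k₁ p0 p1 p2)
  have x2 := LocN.det_mul h hV (LocA.kill_low h hV hk0 k₂ q0 q1 q2)
  have rg : ∀ {j : Fin 3} {a : La} (w : ℤ), Reg j a → Reg j (gc (wt i) w a) :=
    fun w ha => Ge.gc ha _ _
  have rq : ∀ {j l : Fin 3} {a b : La}, j ≠ i → Reg j a → Reg j b →
      Reg j ((M : ℂ) • a + ((d : ℂ) - M) • (sg (-ex i) 1 * sg (ex l) 1 * b)) := by
    intro j l a b hj ha hb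
    exact (ha.smul _).add (((LocN.reg_neg_ex hj 1).mul (LocN.reg_sg_ex j l 1)).mul hb |>.smul _)
  have rd : ∀ {j : Fin 3} {a b : La}, Reg j a → Reg j b →
      Reg j (sg (ex (i + 1)) 1 * a - sg (ex (i + 2)) 1 * b) := by
    intro j a b ha hb
    exact ((LocN.reg_sg_ex j _ 1).mul ha).sub ((LocN.reg_sg_ex j _ 1).mul hb)
  obtain ⟨u₁, ru₁, hu₁⟩ := hV.cop (i + 1) (f3n1 i) _ (rd (rg _ (r₁ _)) (rg _ (r₁ _)))
    ⟨_, rq (f3n1 i) (rg _ (r₁ _)) (rg _ (r₁ _)), x1.1⟩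
    ⟨_, (rq (f3n1 i) (rg _ (r₁ _)) (rg _ (r₁ _))).neg, x1.2⟩
  obtain ⟨u₂, ru₂, hu₂⟩ := hV.cop (i + 2) (f3n2 i) _ (rd (rg _ (r₂ _)) (rg _ (r₂ _)))
    ⟨_, rq (f3n2 i) (rg _ (r₂ _)) (rg _ (r₂ _)), x2.1⟩
    ⟨_, (rq (f3n2 i) (rg _ (r₂ _)) (rg _ (r₂ _))).neg, x2.2⟩
  -- comparison
  have y1 := LocN.det_cu_low h hV hg hs
  have y0 : ∀ j, gc (wt i) (k + 1) (cu (fun j => g * io (v j)) j) =
      gc (wt i) (k + 1) (t₁ j - t₂ j) := by
    intro j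
    have := gc_eq_zero_of_lt (hcu j) (by omega : k + 1 < 2)
    rw [map_sub, sub_eq_zero] at this
    exact this.symm
  have y2 : gc (wt i) (s + μ) (sg (ex (i + 1)) 1 * cu (fun j => g * io (v j)) (i + 2) -
      sg (ex (i + 2)) 1 * cu (fun j => g * io (v j)) (i + 1)) =
      gc (wt i) μ (io P) * (u₁ - u₂) := by
    have z1 : ∀ a : La, gc (wt i) (s + μ) (sg (ex (i + 1)) 1 * a) =
        sg (ex (i + 1)) 1 * gc (wt i) (k + 1) a := by
      intro a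
      rw [mul_comm, show s + (μ : ℤ) = k + 1 + 1 by omega, gc_mul_hm LocN.hm_sg_ex_one, mul_comm]
    have z2 : ∀ a : La, gc (wt i) (s + μ) (sg (ex (i + 2)) 1 * a) =
        sg (ex (i + 2)) 1 * gc (wt i) (k + 1) a := by
      intro a
      rw [mul_comm, show s + (μ : ℤ) = k + 1 + 1 by omega, gc_mul_hm LocN.hm_sg_ex_two, mul_comm]
    rw [map_sub, z1, z2, y0, y0, mul_sub, ← hu₁, ← hu₂, map_sub, map_sub]
    ring
  rw [y2] at y1
  have y3 : sg (ex i) 1 * (u₁ - u₂) = ((3 * M - d * (μ + s) : ℤ) : ℂ) • gc (wt i) s g := by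
    apply mul_left_cancel₀ hV.P2
    rw [mul_smul_comm, mul_comm (gc (wt i) (μ : ℤ) (io P)) (gc (wt i) s g), ← y1]
    ring
  have y4 : ((3 * M - d * (μ + s) : ℤ) : ℂ) = 0 := by
    have z1 : cf m₁ (sg (ex i) 1 * u₁) = 0 := by
      by_contra hne
      have := ((LocN.reg_sg_ex (i + 1) i 1).mul ru₁) m₁ hne
      rw [co_apply] at this
      omega
    have z2 : cf m₁ (sg (ex i) 1 * u₂) = 0 := by
      by_contra hne
      have := ((LocN.reg_sg_ex (i + 2) i 1).mul ru₂) m₁ hne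
      rw [co_apply] at this
      omega
    have z3 := congrArg (cf m₁) y3
    rw [mul_sub, map_sub, z1, z2, sub_zero, map_smul, smul_eq_mul] at z3
    exact (mul_eq_zero.1 z3.symm).resolve_right hm₁
  have y5 : 3 * (M : ℤ) - d * (μ + s) = 0 := by exact_mod_cast y4
  have hd : (0 : ℤ) < d := by exact_mod_cast h.hd
  have y6 : (μ : ℤ) + s = 0 ∨ (μ : ℤ) + s = 1 ∨ (μ : ℤ) + s = 2 := by
    have : 0 ≤ (μ : ℤ) + s := by
      by_contra hneg
      push Not at hneg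
      have : (d : ℤ) * (μ + s) < 0 := mul_neg_of_pos_of_neg hd hneg
      omega
    omega
  rcases y6 with y6 | y6 | y6
  · rw [y6, mul_zero, sub_zero] at y5
    have := LocN.mu_zero h hV (by omega)
    omega
  · rw [y6, mul_one] at y5
    rcases h3 with h3 | ⟨R₁, R₂⟩
    · omega
    have hk2 : k = -1 := by omega
    have hs1 : s = 1 - μ := by omega
    rw [hk2] at p0 q0
    rw [hs1] at hs hs0
    exact LocR.res_apx h hV (by omega) (by omega) R₁ R₂ p0 q0 hg hs hs0 (hcu i) hn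
  · rw [y6] at y5 y3
    have hk2 : k = 0 := by omega
    have hM : 3 * M = 2 * d := by omega
    have z0 : u₁ = u₂ := by
      have : ((3 * M - d * 2 : ℤ) : ℂ) = 0 := by rw [y5, Int.cast_zero]
      rw [this, zero_smul] at y3
      exact sub_eq_zero.1 ((mul_eq_zero.1 y3).resolve_left (LocN.sg_ne_zero _))
    subst z0
    have z1 := LocN.ge_of_reg ru₁ ru₂
    have z2 := (gc_hm (wt i) (μ : ℤ) (io P)).ge.mul z1
    rw [← hu₁, add_zero] at z2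
    rw [hk2] at z2 x1
    have z3 : Hm (wt i) 2 (sg (ex (i + 1)) 1 * gc (wt i) (0 + 1) (t₁ (i + 2)) -
        sg (ex (i + 2)) 1 * gc (wt i) (0 + 1) (t₁ (i + 1))) :=
      (LocN.hm_sg_ex_one.mul (gc_hm _ _ _)).sub (LocN.hm_sg_ex_two.mul (gc_hm _ _ _))
    have z4 : sg (ex (i + 1)) 1 * gc (wt i) (0 + 1) (t₁ (i + 2)) -
        sg (ex (i + 2)) 1 * gc (wt i) (0 + 1) (t₁ (i + 1)) = 0 := by
      apply La.ext'
      intro m
      rw [map_zero]
      by_contra hm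
      have a1 := z3 m hm
      have a2 := z2 m hm
      omega
    rw [z4, mul_zero, mul_zero] at x1
    have w1 := (mul_eq_zero.1 x1.1.symm).resolve_left hV.P2
    have w2 := neg_eq_zero.1 ((mul_eq_zero.1 x1.2.symm).resolve_left hV.P2)
    have w3 := LocN.no_div hM h.hd ((e₁ i).gc _ _) (gc_hm _ _ _) w1 w2
    have w4 : gc (wt i) 0 (dv t₁) = gc (wt i) 0 (sg 0 c) := by
      have := gc_eq_zero_of_lt d₁ (by norm_num : (0 : ℤ) < 1)
      rwa [map_sub, sub_eq_zero] at this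
    unfold dv at w4
    rw [sum3 i, map_add, map_add] at w4
    have c0 := gc_D (wt i) 0 i (t₁ i)
    rw [wt_ex_self, sub_zero] at c0
    have c1 := gc_D (wt i) (0 + 1) (i + 1) (t₁ (i + 1))
    rw [wt_ex_one, add_sub_cancel_right] at c1
    have c2 := gc_D (wt i) (0 + 1) (i + 2) (t₁ (i + 2))
    rw [wt_ex_two, add_sub_cancel_right] at c2
    rw [c0, c1, c2, w3, (Hm.sg (map_zero _) c : Hm (wt i) 0 (sg 0 c)).gc_eq] at w4
    exact hc (AddMonoidAlgebra.single_eq_zero.1 w4.symm)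

end MPb07157.OB
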