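import Pool.Agent.Lib.MP_b07157_agB2.LocK
import Pool.Agent.Lib.MP_b07157_agB3.LocAR
import Pool.Agent.Lib.MP_b07157_agB3.Res

/-!
# The local lemma at the point `(1 : 0 : 0)`, including resonant points
-/

noncomputable section

namespace MPb07157.OK

open MvPolynomial
open MPb07157.OB (Dat Vert La sg io td Ge Hm Reg ex gc RL)

open LocKA

theorem lfc_single (k : Fin 3) : lfc (Pi.single k 1) = X k := by
  unfold lfc
  rw [Finset.sum_eq_single k]
  · rw [Pi.single_eq_same, C_1, one_mul]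
  · intro j _ hj
    rw [Pi.single_eq_of_ne hj, C_0, zero_mul]
  · intro h
    exact absurd (Finset.mem_univ k) h

/-- The additional relation for the corrected vector fields. -/
theorem Res.corr {f P : MvPolynomial (Fin 3) ℂ} {v : Fin 3 → MvPolynomial (Fin 3) ℂ} {d n : ℕ}
    (h : Dat f P v d n) {k : Fin 3} {hh : MvPolynomial (Fin 3) ℂ} {t : Fin 3 → Kf} {γ : Kf}
    (H : Res f (X k) hh t) (hg : Hk (3 - n) γ) (hr : ∀ q, eval q hh ≠ 0 → RegAt q γ) :
    Res f (X k) hh fun j => t j - cuK (fun l => γ * fr (v l)) j := by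
  have hc : (Pi.single k 1 : Fin 3 → ℂ) ≠ 0 := by
    intro h0
    have := congrFun h0 k
    rw [Pi.single_eq_same] at this
    exact one_ne_zero this
  rw [← lfc_single k] at H ⊢
  have h1 := Res.add_cu h hc H (g := -γ) hg.neg (fun q hq => (hr q hq).neg)
  have h2 : (fun j => t j - cuK (fun l => γ * fr (v l)) j) =
      fun j => t j + cuK (fun l => -γ * fr (v l)) j := by
    funext j
    have e1 : (fun l => -γ * fr (v l)) = fun l => 0 - γ * fr (v l) := by
      funext l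
      ring
    have e2 : cuK (fun _ => 0 : Fin 3 → Kf) j = 0 := by
      unfold cuK
      rw [map_zero, map_zero, sub_zero]
    rw [e1, cuK_sub (fun _ => 0) fun l => γ * fr (v l), e2]
    ring
  rw [h2]
  exact h1

/-- The additional relation for the approximations. -/
theorem rl_of_res {f : MvPolynomial (Fin 3) ℂ} {M : ℕ} {j : Fin 3} {hh : MvPolynomial (Fin 3) ℂ}
    {s : Fin 3 → Kf} {a : Fin 3 → La} (H : Res f (X 0) hh s) (hx : X 0 ∣ hh)
    (hap : ∀ w : Kf, Hk 1 w → (∀ q, eval q hh ≠ 0 → RegAt q w) →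
      ∃ b : La, Reg j b ∧ Hm td 1 b ∧ OgK ((M + 5 : ℕ) : ℤ) (w - jo b))
    (ha : ∀ k, OgK ((M + 5 : ℕ) : ℤ) (s k - jo (a k))) : RL f 0 j M a := by
  obtain ⟨r, η, h1, h2, h3, h4, h5, h6⟩ := H
  choose b rb eb ob using fun k => hap (η k) (h3 k) (fun q hq => h4 k q (by
    obtain ⟨w, rfl⟩ := hx
    rw [map_mul] at hq ⊢
    exact mul_ne_zero (left_ne_zero_of_mul hq) (by
      rw [map_mul]
      exact hq)))
  refine ⟨b, rb, eb, (apx_kill h5 ob).mono (by omega), ?_⟩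
  have hX : fr (X 0) ≠ 0 := fr_ne_zero (X_ne_zero 0)
  have e0 : jo (sg (-ex 0) 1) * fr (X 0) = 1 := by
    have := ApxAux.jo_sg_mul 0 1
    rwa [one_smul, pow_one] at this
  have e1 : s 0 = fr (X 0) * (r + dvK η) := by
    rw [← h6, Fin.sum_univ_three, pderiv_X_self, pderiv_X_of_ne (by decide : (0 : Fin 3) ≠ 1),
      pderiv_X_of_ne (by decide : (0 : Fin 3) ≠ 2), map_one, map_zero]
    ring
  have o1 : OgK 0 r := by
    obtain ⟨N, p, hp⟩ := exists_pow h2
    have e2 : r = fr p * (fr (X 0 ^ N))⁻¹ := by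
      rw [← hp, mul_assoc, mul_inv_cancel₀ (fr_ne_zero (pow_ne_zero N (X_ne_zero 0))), mul_one]
    rw [e2]
    have h7 := (ogK_fr p).mul (ogK_inv ((isHomogeneous_X ℂ (0 : Fin 3)).pow N) (by
      rw [map_pow, eval_X, Pi.single_eq_same, one_pow]
      exact one_ne_zero))
    rwa [add_zero] at h7
  have o2 : OgK 0 (jo (sg (-ex 0) 1)) := by
    rw [ogK_jo_iff]
    exact (OB.LocR.hm_inv 0).ge
  rw [← ogK_jo_iff, map_sub, map_mul, jo_dv]
  have e3 : jo (sg (-ex 0) 1) * jo (a 0) - dvK (fun k => jo (b k)) =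
      r - jo (sg (-ex 0) 1) * (s 0 - jo (a 0)) + ∑ k, DK k (η k - jo (b k)) := by
    have e4 : ∑ k, DK k (η k - jo (b k)) = dvK η - dvK (fun k => jo (b k)) := by
      unfold dvK
      rw [← Finset.sum_sub_distrib]
      exact Finset.sum_congr rfl fun k _ => map_sub _ _ _
    rw [e4, e1]
    linear_combination (r + dvK η) * e0
  rw [e3]
  refine (ogK_sub o1 ?_).add (ogK_sum3 fun k => ?_)
  · have := o2.mul (ha 0)
    refine this.mono ?_
    push_cast
    omega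
  · refine ((ob k).DK k).mono ?_
    push_cast
    omega

/-- As `MPb07157.OK.loc_vertex`, where the additional relation is assumed if `3 M = d`. -/
theorem loc_vertex' {f P : MvPolynomial (Fin 3) ℂ} {v : Fin 3 → MvPolynomial (Fin 3) ℂ} {d n : ℕ}
    (h : Dat f P v d n) (hn : 3 ≤ n) {M μ : ℕ} (hV : Vert f P v 0 M μ)
    {e : MvPolynomial (Fin 3) ℂ} {k : ℕ} (he : e.IsHomogeneous k)
    (he0 : eval (Pi.single 0 1) e ≠ 0) (hx : X 0 ∣ e) {c : ℂ} (hc : c ≠ 0)
    {t₁ t₂ : Fin 3 → Kf} {g : Kf} (H : LH f v n (X 1) (X 2) e c t₁ t₂ g)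
    (h3 : 3 * M ≠ d ∨ (Res f (X 0) (X 1 * e) t₁ ∧ Res f (X 0) (X 2 * e) t₂)) :
    LC n μ (Pi.single 0 1) (X 1) (X 2) e g := by
  obtain ⟨γ₁, γ₂, a, hg, hγ₁, hγ₂, ha, rγ₁, rγ₂, hneg⟩ := split he he0 hx H.eg H.rg
  obtain ⟨e₁, k₁, d₁⟩ := corr h H.e₁ H.k₁ H.d₁ hγ₁
  obtain ⟨e₂, k₂, d₂⟩ := corr h H.e₂ H.k₂ H.d₂ hγ₂
  set s₁ : Fin 3 → Kf := fun k => t₁ k - cuK (fun j => γ₁ * fr (v j)) k with hs₁
  set s₂ : Fin 3 → Kf := fun k => t₂ k - cuK (fun j => γ₂ * fr (v j)) k with hs₂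
  have r₁ : ∀ k q, eval q (X 1 * e) ≠ 0 → RegAt q (s₁ k) := fun k q hq =>
    (H.r₁ q hq k).sub (regAt_cuK (fun j => (rγ₁ q hq).mul (RegAt.fr q _)) k)
  have r₂ : ∀ k q, eval q (X 2 * e) ≠ 0 → RegAt q (s₂ k) := fun k q hq =>
    (H.r₂ q hq k).sub (regAt_cuK (fun j => (rγ₂ q hq).mul (RegAt.fr q _)) k)
  have hcu : ∀ k, s₁ k - s₂ k = cuK (fun j => jo a * fr (v j)) k := by
    intro k
    have h1 : (fun j => g * fr (v j)) = fun j =>
        (γ₁ * fr (v j) - γ₂ * fr (v j)) + jo a * fr (v j) := by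
      funext j
      rw [hg]
      ring
    have h2 := H.cu k
    rw [h1, cuK_add (fun j => γ₁ * fr (v j) - γ₂ * fr (v j)) fun j => jo a * fr (v j),
      cuK_sub (fun j => γ₁ * fr (v j)) fun j => γ₂ * fr (v j)] at h2
    show t₁ k - cuK (fun j => γ₁ * fr (v j)) k - (t₂ k - cuK (fun j => γ₂ * fr (v j)) k) = _
    linear_combination h2
  choose a₁ ra₁ ea₁ oa₁ using fun k => approx₁ he he0 (e₁ k) (r₁ k) (M + 5)
  choose a₂ ra₂ ea₂ oa₂ using fun k => approx₂ he he0 (e₂ k) (r₂ k) (M + 5)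
  have hwt : ∀ m, OB.cf m a ≠ 0 → -(m 1 + m 2) ≤ (μ : ℤ) - 3 := by
    have hcu' : ∀ k, Ge (OB.wt 0) 2 (a₂ k - a₁ k - OB.cu (fun j => (-a) * io (v j)) k) := by
      intro k
      rw [← ogK_jo_iff, map_sub, map_sub, jo_cu]
      have h1 : (fun j => jo ((-a) * io (v j))) = fun j => 0 - jo a * fr (v j) := by
        funext j
        rw [map_mul, map_neg, jo_io]
        ring
      have h2 : cuK (fun _ => 0 : Fin 3 → Kf) k = 0 := by
        unfold cuK
        rw [map_zero, map_zero, sub_zero]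
      have h4 : jo (a₂ k) - jo (a₁ k) - cuK (fun j => jo ((-a) * io (v j))) k =
          (s₁ k - jo (a₁ k)) - (s₂ k - jo (a₂ k)) := by
        rw [h1, cuK_sub (fun _ => 0) fun j => jo a * fr (v j), h2, ← hcu k]
        ring
      rw [h4]
      refine (ogK_sub (oa₁ k) (oa₂ k)).mono ?_
      push_cast
      omega
    have h3' : 3 * M ≠ d ∨ (RL f 0 (0 + 1) M a₂ ∧ RL f 0 (0 + 2) M a₁) := by
      rcases h3 with h3 | ⟨R₁, R₂⟩
      · exact Or.inl h3
      · refine Or.inr ⟨?_, ?_⟩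
        · exact rl_of_res (R₂.corr h hγ₂ rγ₂) (hx.mul_left _)
            (fun w hw hr => approx₂ he he0 hw hr (M + 5)) oa₂
        · exact rl_of_res (R₁.corr h hγ₁ rγ₁) (hx.mul_left _)
            (fun w hw hr => approx₁ he he0 hw hr (M + 5)) oa₁
    have key := OB.loc_apx' h hV h3' (t₁ := a₂) (t₂ := a₁) (fun k => ra₂ k) (fun k => ra₁ k)
      ea₂ ea₁ (apx_kill k₂ oa₂) (apx_kill k₁ oa₁) hc (apx_div d₂ oa₂) (g := -a) ha.neg hcu'
      (fun m hm => hneg m (by rwa [map_neg, neg_ne_zero] at hm))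
    intro m hm
    exact key m (by rwa [map_neg, neg_ne_zero])
  -- the products with the forms
  have hge : ∀ σ, Wf n μ (Pi.single 0 1) σ → Ge (OB.wt 0) 0 (a * io σ) := by
    intro σ hσ
    by_cases hμ : 3 ≤ μ
    · have h1 : Ge (OB.wt 0) (3 - μ : ℤ) a := by
        intro m hm
        have := hwt m hm
        rw [OB.wt_apply]
        show (3 - μ : ℤ) ≤ m 1 + m 2
        omega
      have h2 : Ge (OB.wt 0) ((μ - 3 : ℕ) : ℤ) (io σ) := by
        rw [← ogK_jo_iff, jo_io]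
        exact ogK_of_mu hσ.1 hσ.2
      have h4 := h1.mul h2
      exact h4.mono (by omega)
    · have h1 : a = 0 := by
        apply OB.La.ext'
        intro m
        rw [map_zero]
        by_contra hm
        have h4 := hwt m hm
        have h5 := hneg m hm
        omega
      rw [h1, zero_mul]
      exact Ge.zero _ _
  have hhm : ∀ σ, Wf n μ (Pi.single 0 1) σ → Hm td 0 (a * io σ) := by
    intro σ hσ
    have h1 := ha.mul (OB.hm_io hσ.1)
    have h2 : (3 - n : ℤ) + ((n - 3 : ℕ) : ℤ) = 0 := by omega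
    rwa [h2] at h1
  refine ⟨γ₁, hγ₁, rγ₁, fun σ => jo (pA (a * io σ)), fun σ hσ => ⟨?_, ?_, ?_, ?_⟩⟩
  · exact hk_jo ((hhm σ hσ).cpt _)
  · exact fun q hq => regAt_off₁ hx (reg_pA _) hq
  · intro q hq
    have h1 : fr σ * (g - γ₁) - jo (pA (a * io σ)) =
        jo (a * io σ - pA (a * io σ)) - fr σ * γ₂ := by
      rw [hg, map_sub, map_mul, jo_io]
      ring
    rw [h1]
    exact (regAt_off₂ hx (reg_sub_pA (hge σ hσ)) hq).sub ((RegAt.fr q _).mul (rγ₂ q hq))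
  · intro τ hτ
    have h1 : fr τ * jo (pA (a * io σ)) - fr σ * jo (pA (a * io τ)) =
        jo (io τ * pA (a * io σ) - io σ * pA (a * io τ)) := by
      rw [map_sub, map_mul, map_mul, jo_io, jo_io]
    rw [h1]
    refine ogR_jo ?_ ?_ (κ := ((n - 3 : ℕ) : ℤ) + 0) ?_ ?_
    · have h2 : io τ * pA (a * io σ) - io σ * pA (a * io τ) =
          io σ * (a * io τ - pA (a * io τ)) - io τ * (a * io σ - pA (a * io σ)) := by ring
      rw [h2]
      exact ((OB.Reg.io 1 _).mul (reg_sub_pA (hge τ hτ))).sub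
        ((OB.Reg.io 1 _).mul (reg_sub_pA (hge σ hσ)))
    · exact ((OB.Reg.io 2 _).mul (reg_pA _)).sub ((OB.Reg.io 2 _).mul (reg_pA _))
    · exact ((OB.hm_io hτ.1).mul ((hhm σ hσ).cpt _)).sub
        ((OB.hm_io hσ.1).mul ((hhm τ hτ).cpt _))
    · have h2 : ∀ σ', Wf n μ (Pi.single 0 1) σ' → Ge (OB.wt 0) ((μ - 3 : ℕ) : ℤ) (io σ') := by
        intro σ' hσ'
        rw [← ogK_jo_iff, jo_io]
        exact ogK_of_mu hσ'.1 hσ'.2
      have h4 := (h2 τ hτ).mul ((hge σ hσ).cpt fun m => 0 ≤ m 2)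
      have h5 := (h2 σ hσ).mul ((hge τ hτ).cpt fun m => 0 ≤ m 2)
      rw [add_zero] at h4 h5
      exact h4.sub h5

end MPb07157.OK
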