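import Pool.Agent.Lib.MP_b07157_agQ.QDefs

/-!
# Curves with ordinary multiple points: definitions
-/

noncomputable section

namespace MPb07157

open MvPolynomial

/-- At the point `p` the reduced curve of `f` has an ordinary multiple point: `F` is a reduced
equation, and the initial form of `F` at `p` is squarefree. -/
def OrdPt (f : MvPolynomial (Fin 3) ℂ) (p : Fin 3 → ℂ) : Prop :=
  ∃ (F : MvPolynomial (Fin 3) ℂ) (k μ : ℕ), Squarefree F ∧ F ∣ f ∧ f ∣ F ^ k ∧
    (∀ j < μ, homogeneousComponent j (translate p F) = 0) ∧
    Squarefree (homogeneousComponent μ (translate p F))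

/-- All points of the curve are quasi-homogeneous points or ordinary multiple points of the
reduced curve. -/
def AllPt (f : MvPolynomial (Fin 3) ℂ) : Prop :=
  ∀ p ≠ 0, eval p f = 0 → IsWHAt f p ∨ OrdPt f p

end MPb07157
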