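import Pool.Agent.Lib.MP_b07157_agB2.TrK
import Pool.Agent.Lib.MP_b07157_agB3.LocKR
import Pool.Agent.Lib.MP_b07157_agB3.PDefs

/-!
# The local lemma at an arbitrary point, including resonant points
-/

noncomputable section

namespace MPb07157.OB

open MvPolynomial MPb07157Q

variable {f P : MvPolynomial (Fin 3) ℂ} {v : Fin 3 → MvPolynomial (Fin 3) ℂ} {d n : ℕ}

theorem exists_mult (hf : f ≠ 0) (p : Fin 3 → ℂ) : ∃ M : ℕ,
    (∀ j < M, homogeneousComponent j (translate p f) = 0) ∧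
    homogeneousComponent M (translate p f) ≠ 0 := by
  classical
  have hex : ∃ j, homogeneousComponent j (translate p f) ≠ 0 := by
    by_contra hcon
    push Not at hcon
    apply translate_ne_zero hf p
    rw [← sum_homogeneousComponent (translate p f)]
    exact Finset.sum_eq_zero fun j _ => hcon j
  exact ⟨Nat.find hex, fun j hj => not_not.1 (Nat.find_min hex hj), Nat.find_spec hex⟩

/-- The data at a coordinate point. -/
theorem vert_of_ordPt {r : ℕ} {g : Fin r → MvPolynomial (Fin 3) ℂ} {m : Fin r → ℕ}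
    (hf : IsFact f g m) (h : Dat f (∏ j, g j) (vv g m) d n) {i : Fin 3}
    (ho : OrdPt f (Pi.single i 1)) :
    ∃ M μ : ℕ, Vert f (∏ j, g j) (vv g m) i M μ := by
  classical
  obtain ⟨F, k, μ, hs, h1, h2, h3, h4⟩ := ho
  obtain ⟨M, h5, h6⟩ := exists_mult h.f0 (Pi.single i 1)
  obtain ⟨c, hc, hF⟩ := eq_of_squarefree hf hs h1 h2
  set P := ∏ j, g j with hP
  have h3' : ∀ j < μ, homogeneousComponent j (translate (Pi.single i (1 : ℂ)) P) = 0 := by
    intro j hj
    have := h3 j hj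
    rw [hF, translate_C_mul, homogeneousComponent_C_mul] at this
    exact (mul_eq_zero.1 this).resolve_left (fun h0 => hc (C_eq_zero.1 h0))
  have h4' : Squarefree (homogeneousComponent μ (translate (Pi.single i (1 : ℂ)) P)) := by
    rw [hF, translate_C_mul, homogeneousComponent_C_mul] at h4
    exact squarefree_C_mul h4
  have P1 : Ge (wt i) μ (io P) := (ge_iff h.hP i μ).2 h3'
  have f1 : Ge (wt i) M (io f) := (ge_iff h.hf i M).2 h5
  have P2' := gc_eq h.hP i P1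
  have f2' := gc_eq h.hf i f1
  have P2 : gc (wt i) μ (io P) ≠ 0 := by
    rw [P2']
    exact io_ne_zero (mul_ne_zero (pow_ne_zero _ (X_ne_zero _)) h4'.ne_zero)
  have f2 : gc (wt i) M (io f) ≠ 0 := by
    rw [f2']
    exact io_ne_zero (mul_ne_zero (pow_ne_zero _ (X_ne_zero _)) h6)
  refine ⟨M, μ, ⟨f1, f2, P1, P2, ?_⟩⟩
  -- `f = P R`
  obtain ⟨R, hR⟩ : P ∣ f := by
    rw [hP, hf.eq]
    unfold prodPow
    exact Finset.prod_dvd_prod_of_dvd _ _ fun j _ => dvd_pow_self _ (hf.pos j).ne'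
  have hR0 : io R ≠ 0 := by
    apply io_ne_zero
    rintro rfl
    rw [mul_zero] at hR
    exact h.f0 hR
  obtain ⟨s, R1, R2⟩ := exists_order (wt i) hR0
  have hfR : gc (wt i) (μ + s) (io f) = gc (wt i) μ (io P) * gc (wt i) s (io R) := by
    rw [hR, map_mul, gc_mul_low P1 R1]
  have hfR1 : Ge (wt i) (μ + s) (io f) := by
    rw [hR, map_mul]
    exact P1.mul R1
  have hMs : (M : ℤ) = μ + s := by
    rcases lt_trichotomy (M : ℤ) (μ + s) with hlt | heq | hgt
    · exact absurd (gc_eq_zero_of_lt hfR1 hlt) f2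
    · exact heq
    · have := gc_eq_zero_of_lt f1 hgt
      rw [hfR] at this
      exact absurd this (mul_ne_zero P2 R2)
  obtain ⟨R₀, hR₀⟩ := exists_pol (wt i) s R
  obtain ⟨a, ha⟩ := exists_pol (wt i) ((μ : ℤ) - 1) (vv g m (i + 1))
  obtain ⟨b, hb⟩ := exists_pol (wt i) ((μ : ℤ) - 1) (vv g m (i + 2))
  have l1 := low_rel0 h f1 f2 P1 (i + 1)
  have l2 := low_rel0 h f1 f2 P1 (i + 2)
  rw [wt_ex_one] at l1
  rw [wt_ex_two] at l2
  rw [P2', f2', ha, D_io, ← map_mul, ← map_mul] at l1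
  rw [P2', f2', hb, D_io, ← map_mul, ← map_mul] at l2
  rw [P2', ha, hb]
  have hfR' := hfR
  rw [← hMs, P2', f2', hR₀, ← map_mul] at hfR'
  refine cop_of (mul_ne_zero (pow_ne_zero _ (X_ne_zero _)) h6) (io_injective hfR') rfl h4'
    (degreeOf_low h.hP i P1) (io_injective l1) (io_injective l2)

end MPb07157.OB

namespace MPb07157.OK

open MvPolynomial
open MPb07157.OB (Dat Vert)

namespace TrAux

open MPb07157.OB.LinAux (sub sub_X sub_C sub_sub eval_subst homog_sub pderiv_sub sum_inv sum_inv'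
  sum_row homogComp_sub translate_sub squarefree_equiv)

variable {p q : Fin 3 → Fin 3 → ℂ} {D : ℂ}

theorem ordPt_eqv (M : Mat p q D) {f : MvPolynomial (Fin 3) ℂ} (h : OrdPt f (p 0)) :
    OrdPt (eqv M f) (Pi.single 0 1) := by
  obtain ⟨F, k, μ, h1, h2, h3, h4, h5⟩ := h
  refine ⟨eqv M F, k, μ, squarefree_equiv (eqv M) h1, map_dvd (eqv M) h2, ?_, ?_, ?_⟩
  · rw [← map_pow]
    exact map_dvd (eqv M) h3
  · intro j hj
    rw [eqv_apply, translate_sub, homogComp_sub, h4 j hj, map_zero]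
  · rw [eqv_apply, translate_sub, homogComp_sub]
    exact squarefree_equiv (eqv M) h5

theorem vf_pair (M : Mat p q D) (t : Fin 3 → Kf) (x : MvPolynomial (Fin 3) ℂ) :
    ∑ k, vf M t k * DK k (fr (eqv M x)) = phi M (∑ k, t k * DK k (fr x)) := by
  have h1 := sum_inv (R := Kf) M.qp (fun j => phi M (t j)) (fun j => phi M (DK j (fr x)))
  have h2 : ∀ k, DK k (fr (eqv M x)) = ∑ m, algebraMap ℂ Kf (p k m) * phi M (DK m (fr x)) := by
    intro k
    rw [← phi_fr, DK_phi]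
  simp only [h2]
  refine h1.trans ?_
  rw [map_sum]
  exact Finset.sum_congr rfl fun j _ => (map_mul _ _ _).symm

/-- The transform of the additional relation. -/
theorem res_eqv (M : Mat p q D) {f x h : MvPolynomial (Fin 3) ℂ} {t : Fin 3 → Kf}
    (H : Res f x h t) : Res (eqv M f) (eqv M x) (eqv M h) (vf M t) := by
  obtain ⟨r, η, h1, h2, h3, h4, h5, h6⟩ := H
  refine ⟨phi M r, vf M η, (hk_phi M).2 h1, fun y hy => ?_, vf_hk M h3, fun k y hy => ?_,
    vf_kill M h5, ?_⟩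
  · rw [eval_eqv] at hy
    exact (regAt_phi M).2 (h2 _ hy)
  · rw [← map_mul, eval_eqv] at hy
    exact vf_reg M (fun j => h4 j _ hy) k
  · have e1 := vf_pair M t x
    have e2 : ∑ k, t k * DK k (fr x) = ∑ k, fr (pderiv k x) * t k :=
      Finset.sum_congr rfl fun k _ => by rw [DK_fr, mul_comm]
    have e3 : ∑ k, vf M t k * DK k (fr (eqv M x)) =
        ∑ k, fr (pderiv k (eqv M x)) * vf M t k :=
      Finset.sum_congr rfl fun k _ => by rw [DK_fr, mul_comm]
    rw [← e3, e1, e2, h6, map_mul, map_add, phi_fr, vf_div]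

end TrAux

open TrAux in
/-- The local lemma at an arbitrary ordinary multiple point `b`, with the additional relations. -/
theorem loc_general' {r : ℕ} {f : MvPolynomial (Fin 3) ℂ} {g : Fin r → MvPolynomial (Fin 3) ℂ}
    {m : Fin r → ℕ} {d n : ℕ} (hf : IsFact f g m) (h : Dat f (∏ j, g j) (vv g m) d n)
    (hn : 3 ≤ n) {b : Fin 3 → ℂ} (hb : b ≠ 0) (ho : OrdPt f b) {μ : ℕ}
    (hμ : Mu b μ (∏ j, g j)) (hμ' : ¬ Mu b (μ + 1) (∏ j, g j)) :
    ∃ x y z : MvPolynomial (Fin 3) ℂ, Crd b x y z ∧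
      ∀ (e : MvPolynomial (Fin 3) ℂ) (k : ℕ) (c : ℂ) (t₁ t₂ : Fin 3 → Kf) (G : Kf),
        e.IsHomogeneous k → eval b e ≠ 0 → x ∣ e → c ≠ 0 →
        LH f (vv g m) n y z e c t₁ t₂ G → Res f x (y * e) t₁ → Res f x (z * e) t₂ →
        LC n μ b y z e G := by
  obtain ⟨p, q, D, M, hp⟩ := exists_mat hb
  subst hp
  have hf' := isFact_eqv M hf
  obtain ⟨n', h'⟩ := MPb07157.OB.dat_of_isFact hf' h.hd (hom_eqv M h.hf)
  have hP : ∏ j, eqv M (g j) = eqv M (∏ j, g j) := (map_prod (eqv M) _ _).symm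
  have hnn : n' = n := by
    have h1 := h'.hP
    rw [hP] at h1
    have h2 : eqv M (∏ j, g j) ≠ 0 := (map_ne_zero_iff _ (eqv M).injective).2 h.P0
    exact h1.inj_right (hom_eqv M h.hP) h2
  subst hnn
  obtain ⟨N, μ', hV⟩ := MPb07157.OB.vert_of_ordPt hf' h' (ordPt_eqv M ho)
  have hμμ : μ' = μ := by
    have c1 : MPb07157.OB.Ge (MPb07157.OB.wt 0) μ (MPb07157.OB.io (∏ j, eqv M (g j))) := by
      rw [MPb07157.OB.ge_iff h'.hP 0 μ, hP]
      exact (mu_eqv M).2 hμ
    have c2 : ¬ MPb07157.OB.Ge (MPb07157.OB.wt 0) ((μ + 1 : ℕ) : ℤ)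
        (MPb07157.OB.io (∏ j, eqv M (g j))) := by
      rw [MPb07157.OB.ge_iff h'.hP 0 (μ + 1), hP]
      intro hc
      exact hμ' ((mu_eqv M).1 hc)
    rcases lt_trichotomy μ' μ with hlt | heq | hgt
    · exact absurd (MPb07157.OB.gc_eq_zero_of_lt c1 (by exact_mod_cast hlt)) hV.P2
    · exact heq
    · exact absurd (hV.P1.mono (by exact_mod_cast hgt)) c2
  subst hμμ
  refine ⟨(eqv M).symm (X 0), (eqv M).symm (X 1), (eqv M).symm (X 2), ?_,
    fun e k c t₁ t₂ G he he0 hx hc H R₁ R₂ => lc_back M (MPb07157.OK.loc_vertex' h' hn hV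
      (hom_eqv M he) ?_ ?_ hc (lh_eqv M (fun i => vv_eqv M g m i) H) (Or.inr ⟨?_, ?_⟩))⟩
  · refine ⟨hom_symm M (isHomogeneous_X ℂ 0), hom_symm M (isHomogeneous_X ℂ 1),
      hom_symm M (isHomogeneous_X ℂ 2), ?_, ?_, ?_, fun y h1 h2 => ?_⟩
    · rw [← pt_single p, eval_symm, eval_X, Pi.single_eq_same]
      exact one_ne_zero
    · rw [← pt_single p, eval_symm, eval_X]
      rfl
    · rw [← pt_single p, eval_symm, eval_X]
      rfl
    · obtain ⟨x, rfl⟩ := exists_pt M y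
      rw [eval_symm, eval_X] at h1 h2
      refine ⟨x 0, ?_⟩
      unfold pt
      rw [Fin.sum_univ_three, h1, h2, zero_smul, zero_smul, add_zero, add_zero]
  · rw [eval_eqv, pt_single]
    exact he0
  · have h1 := map_dvd (eqv M) hx
    rwa [AlgEquiv.apply_symm_apply] at h1
  · have h1 := res_eqv M R₁
    rwa [map_mul, AlgEquiv.apply_symm_apply, AlgEquiv.apply_symm_apply] at h1
  · have h1 := res_eqv M R₂
    rwa [map_mul, AlgEquiv.apply_symm_apply, AlgEquiv.apply_symm_apply] at h1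

end MPb07157.OK
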