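import Pool.Agent.Lib.MP_b07157_agB2.Loc2
import Pool.Agent.Lib.MP_b07157_agB3.TrKR
import Pool.Agent.Lib.MP_b07157_agB3.TotKR

/-!
# Local solutions at the bad points, including resonant points
-/

noncomputable section

namespace MPb07157.OK

open MvPolynomial
open MPb07157.OB (Dat Vert)

theorem exists_lfc {z : MvPolynomial (Fin 3) ℂ} (hz : z.IsHomogeneous 1) (z0 : z ≠ 0) :
    ∃ c : Fin 3 → ℂ, c ≠ 0 ∧ z = lfc c := by
  have h1 : ∀ i, ∃ c : ℂ, pderiv i z = C c := by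
    intro i
    have h2 : (pderiv i z).IsHomogeneous 0 := hz.pderiv
    have h3 : (pderiv i z).totalDegree = 0 := Nat.le_zero.1 h2.totalDegree_le
    exact ⟨_, totalDegree_eq_zero_iff_eq_C.1 h3⟩
  choose c hc using h1
  have h5 : z = lfc c := by
    have h4 := hz.sum_X_mul_pderiv
    rw [one_smul] at h4
    rw [← h4]
    unfold lfc
    exact Finset.sum_congr rfl fun i _ => by rw [hc, mul_comm]
  refine ⟨c, ?_, h5⟩
  rintro rfl
  apply z0
  rw [h5]
  unfold lfc
  simp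

open Loc2Aux in
/-- As `MPb07157.OK.loc_sol`, for all ordinary multiple points. -/
theorem loc_sol' {r l : ℕ} {f : MvPolynomial (Fin 3) ℂ} {g : Fin l → MvPolynomial (Fin 3) ℂ}
    {m : Fin l → ℕ} {d n : ℕ} (hf : IsFact f g m) (h : Dat f (∏ j, g j) (vv g m) d n)
    (hn : 3 ≤ n) {b : Fin r → Fin 3 → ℂ} (hb : ∀ j, b j ≠ 0)
    (hbb : ∀ i j, i ≠ j → ∀ c : ℂ, b i ≠ c • b j) {c : ℂ} (hc : c ≠ 0) {t : Fin 3 → Kf}
    {Sec : (Fin 3 → ℂ) → Kf → Prop} (hS : Sol f (vv g m) n b c t Sec)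
    (hR : SolR f (vv g m) n b t Sec) (j : Fin r) (ho : OrdPt f (b j)) {μ : ℕ} (hμ : Mu (b j) μ (∏ j, g j))
    (hμ' : ¬ Mu (b j) (μ + 1) (∏ j, g j)) : ∃ e s, LS b n μ j Sec e s := by
  obtain ⟨x, y, z, hC, hloc⟩ := loc_general' hf h hn (hb j) ho hμ hμ'
  obtain ⟨e0, h0, hh0, h0b, h0i⟩ := exists_sep hbb j
  have y0 : y ≠ 0 := ne_zero_of_yz hC.hz hC.yz
  have z0 : z ≠ 0 := ne_zero_of_yz hC.hy fun q a1 a2 => hC.yz q a2 a1
  have hE : (x * h0).IsHomogeneous (1 + e0) := hC.hx.mul hh0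
  have hEb : eval (b j) (x * h0) ≠ 0 := by
    rw [map_mul]
    exact mul_ne_zero hC.xb h0b
  have hEi : ∀ i, i ≠ j → eval (b i) (x * h0) = 0 := by
    intro i hi
    rw [map_mul, h0i i hi, mul_zero]
  have hx : x ∣ x * h0 := dvd_mul_right _ _
  obtain ⟨cx, hcx, hxc⟩ := exists_lfc hC.hx (fun h1 => hC.xb (by rw [h1, map_zero]))
  generalize x * h0 = e at hE hEb hEi hx
  have hE0 : e ≠ 0 := by
    rintro rfl
    exact hEb (map_zero _)
  have hex : ∀ w : MvPolynomial (Fin 3) ℂ, w.IsHomogeneous 1 → w ≠ 0 → eval (b j) w = 0 →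
      ∃ g', Hk (3 - n) g' ∧ (∀ q, eval q (w * e) ≠ 0 → Sec q g') ∧
        Res f x (w * e) fun k => t k + cuK (fun j => g' * fr (vv g m j)) k := by
    intro w hw w0 wb
    have hwe : ∀ i, eval (b i) (w * e) = 0 := by
      intro i
      rw [map_mul]
      by_cases hi : i = j
      · rw [hi, wb, zero_mul]
      · rw [hEi i hi, mul_zero]
    obtain ⟨g', a1, a2, a3⟩ :=
      hR (1 + (1 + e0)) (w * e) (by omega) (hw.mul hE) (mul_ne_zero w0 hE0) hwe
    refine ⟨g', a1, a2, ?_⟩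
    rw [hxc]
    exact a3 cx hcx
  obtain ⟨g1, hg1, hs1, R1⟩ := hex y hC.hy y0 hC.yb
  obtain ⟨g2, hg2, hs2, R2⟩ := hex z hC.hz z0 hC.zb
  have hkill : ∀ g' : Kf,
      ∑ k, (t k + cuK (fun j => g' * fr (vv g m j)) k) * DK k (fr f) = 0 := by
    intro g'
    have h1 := hS.kill
    have h2 := cu_kills h g'
    have h3 : ∑ k, (t k + cuK (fun j => g' * fr (vv g m j)) k) * DK k (fr f) =
        ∑ k, t k * DK k (fr f) + ∑ k, cuK (fun j => g' * fr (vv g m j)) k * DK k (fr f) := by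
      rw [← Finset.sum_add_distrib]
      exact Finset.sum_congr rfl fun k _ => add_mul _ _ _
    rw [h3, h1, h2, add_zero]
  have hdiv : ∀ g' : Kf,
      dvK (fun k => t k + cuK (fun j => g' * fr (vv g m j)) k) = algebraMap ℂ Kf c := by
    intro g'
    have h1 := hS.div
    have h2 := dvK_cuK (fun j => g' * fr (vv g m j))
    have h3 : dvK (fun k => t k + cuK (fun j => g' * fr (vv g m j)) k) =
        dvK t + dvK (cuK (fun j => g' * fr (vv g m j))) := by
      unfold dvK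
      rw [← Finset.sum_add_distrib]
      exact Finset.sum_congr rfl fun k _ => map_add _ _ _
    rw [h3, h1, h2, add_zero]
  have LHh : LH f (vv g m) n y z e c (fun k => t k + cuK (fun j => g1 * fr (vv g m j)) k)
      (fun k => t k + cuK (fun j => g2 * fr (vv g m j)) k) (g1 - g2) := by
    refine ⟨fun q hq k => hS.reg q g1 (hs1 q hq) k, fun q hq k => hS.reg q g2 (hs2 q hq) k,
      fun q hq => ?_, fun k => (hS.hom k).add (cuK_hk hn hg1 h.hv k),
      fun k => (hS.hom k).add (cuK_hk hn hg2 h.hv k), hg1.sub hg2, hkill g1, hkill g2, hdiv g1,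
      hdiv g2, fun k => ?_⟩
    · rw [map_mul, map_mul] at hq
      have q1 := left_ne_zero_of_mul hq
      have qe := right_ne_zero_of_mul hq
      refine hS.uniq q g1 g2 (hs1 q ?_) (hs2 q ?_)
      · rw [map_mul]
        exact mul_ne_zero (left_ne_zero_of_mul q1) qe
      · rw [map_mul]
        exact mul_ne_zero (right_ne_zero_of_mul q1) qe
    · rw [← cuK_sub g1 g2]
      ring
  obtain ⟨γ, hγ, hγr, α, hα⟩ := hloc e (1 + e0) c _ _ _ hE hEb hx hc LHh R1 R2
  refine ⟨e, fun σ => fr σ * (g1 - γ) - α σ, ⟨_, hE⟩, hEb, hEi, fun σ hσ => ?_,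
    fun σ hσ q G' hq hoff hSec => ?_, fun σ τ hσ hτ => ?_⟩
  · have h1 := (Hk.fr hσ.1).mul (hg1.sub hγ)
    have h2 : ((n - 3 : ℕ) : ℤ) + (3 - n) = 0 := by omega
    rw [h2] at h1
    exact h1.sub (hα σ hσ).1
  · obtain ⟨_, a2, a3, _⟩ := hα σ hσ
    by_cases hy : eval q y = 0
    · by_cases hz : eval q z = 0
      · obtain ⟨c', hc'⟩ := hC.yz q hy hz
        exact absurd hc' (hoff.2 j c')
      · have hq' : eval q (z * e) ≠ 0 := by
          rw [map_mul]
          exact mul_ne_zero hz hq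
        have h1 : fr σ * G' - (fr σ * (g1 - γ) - α σ) =
            fr σ * (G' - g2) - (fr σ * (g1 - g2 - γ) - α σ) := by ring
        rw [h1]
        exact ((RegAt.fr q σ).mul (hS.uniq q G' g2 hSec (hs2 q hq'))).sub (a3 q hq')
    · have hq' : eval q (y * e) ≠ 0 := by
        rw [map_mul]
        exact mul_ne_zero hy hq
      have h1 : fr σ * G' - (fr σ * (g1 - γ) - α σ) =
          fr σ * (G' - g1) + fr σ * γ + α σ := by ring
      rw [h1]
      exact (((RegAt.fr q σ).mul (hS.uniq q G' g1 hSec (hs1 q hq'))).add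
        ((RegAt.fr q σ).mul (hγr q hq'))).add (a2 q hq')
  · have h1 := ((hα σ hσ).2.2.2 τ hτ).neg
    have h2 : fr τ * (fr σ * (g1 - γ) - α σ) - fr σ * (fr τ * (g1 - γ) - α τ) =
        -(fr τ * α σ - fr σ * α τ) := by ring
    rw [h2]
    exact h1

end MPb07157.OK
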